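import Mathlib

set_option autoImplicit false

namespace Pool.Agent.MP_2cd596_an.H55

open scoped NNReal ENNReal

/-- Remainders of the mixed radix expansion. -/
noncomputable def rem (M : ℕ → ℕ) (u : ℝ) : ℕ → ℝ
  | 0 => u
  | t + 1 => Int.fract ((M t : ℝ) * rem M u t)

/-- Digits of the mixed radix expansion. -/
noncomputable def dig (M : ℕ → ℕ) (u : ℝ) (t : ℕ) : ℕ := ⌊(M t : ℝ) * rem M u t⌋₊

theorem rem_mem {M : ℕ → ℕ} {u : ℝ} (hu : u ∈ Set.Ico (0 : ℝ) 1) (t : ℕ) :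
    rem M u t ∈ Set.Ico (0 : ℝ) 1 := by
  cases t with
  | zero => exact hu
  | succ t => exact ⟨Int.fract_nonneg _, Int.fract_lt_one _⟩

theorem dig_lt {M : ℕ → ℕ} (hM : ∀ t, 0 < M t) {u : ℝ} (hu : u ∈ Set.Ico (0 : ℝ) 1) (t : ℕ) :
    dig M u t < M t := by
  have h := rem_mem (M := M) hu t
  have hM' : (0 : ℝ) < M t := by exact_mod_cast hM t
  unfold dig
  rw [Nat.floor_lt (mul_nonneg hM'.le h.1)]
  nlinarith [h.2]

theorem rem_succ {M : ℕ → ℕ} {u : ℝ} (hu : u ∈ Set.Ico (0 : ℝ) 1) (t : ℕ) :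
    rem M u (t + 1) = (M t : ℝ) * rem M u t - dig M u t := by
  have h := rem_mem (M := M) hu t
  have h0 : 0 ≤ (M t : ℝ) * rem M u t := mul_nonneg (Nat.cast_nonneg _) h.1
  simp only [rem, dig, Int.fract]
  rw [natCast_floor_eq_intCast_floor h0]

theorem sub_eq_of_dig {M : ℕ → ℕ} {u v : ℝ} (hu : u ∈ Set.Ico (0 : ℝ) 1)
    (hv : v ∈ Set.Ico (0 : ℝ) 1) (t : ℕ) (h : ∀ i < t, dig M u i = dig M v i) :
    (∏ i ∈ Finset.range t, (M i : ℝ)) * (u - v) = rem M u t - rem M v t := by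
  induction t with
  | zero => simp [rem]
  | succ t ih =>
    rw [Finset.prod_range_succ, rem_succ hu, rem_succ hv, h t (Nat.lt_succ_self t)]
    have := ih (fun i hi => h i (Nat.lt_succ_of_lt hi))
    linear_combination (M t : ℝ) * this

theorem abs_sub_le_of_dig {M : ℕ → ℕ} (hM : ∀ t, 0 < M t) {u v : ℝ}
    (hu : u ∈ Set.Ico (0 : ℝ) 1) (hv : v ∈ Set.Ico (0 : ℝ) 1) (t : ℕ)
    (h : ∀ i < t, dig M u i = dig M v i) :
    |u - v| ≤ (∏ i ∈ Finset.range t, (M i : ℝ))⁻¹ := by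
  have hP : (0 : ℝ) < ∏ i ∈ Finset.range t, (M i : ℝ) :=
    Finset.prod_pos fun i _ => by exact_mod_cast hM i
  have h1 := sub_eq_of_dig hu hv t h
  have h2 := rem_mem (M := M) hu t
  have h3 := rem_mem (M := M) hv t
  have h4 : |(∏ i ∈ Finset.range t, (M i : ℝ)) * (u - v)| ≤ 1 := by
    rw [h1, abs_le]
    constructor <;> linarith [h2.1, h2.2, h3.1, h3.2]
  rw [abs_mul, abs_of_pos hP] at h4
  rw [← one_div, le_div_iff₀ hP]
  linarith

/-- Lower bound for the Hausdorff dimension from a separated coding. -/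
theorem le_dimH_of_coding {A : Set ℝ} {M : ℕ → ℕ} (hM : ∀ t, 0 < M t) {r : ℕ → ℝ}
    (hr : ∀ t, 0 < r t) (hr0 : Filter.Tendsto r Filter.atTop (nhds 0)) (Φ : (ℕ → ℕ) → ℝ)
    (hA : ∀ e : ℕ → ℕ, (∀ t, e t < M t) → Φ e ∈ A)
    (hsep : ∀ e e' : ℕ → ℕ, (∀ t, e t < M t) → (∀ t, e' t < M t) → ∀ t,
      (∀ i < t, e i = e' i) → e t ≠ e' t → r t ≤ |Φ e - Φ e'|)
    {s : ℝ≥0} (hs : 0 < s) {C : ℝ} (hC0 : 0 ≤ C)
    (hC : ∀ t, (∏ i ∈ Finset.range t, (M i : ℝ))⁻¹ ≤ C * r t ^ (s : ℝ)) :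
    (s : ℝ≥0∞) ≤ dimH A := by
  classical
  have hs' : (0 : ℝ) < s := hs
  set Ψ : ℝ → ℝ := fun u => Φ (dig M u) with hΨ
  have key : ∀ u ∈ Set.Ico (0 : ℝ) 1, ∀ v ∈ Set.Ico (0 : ℝ) 1,
      |u - v| ≤ C * |Ψ u - Ψ v| ^ (s : ℝ) := by
    intro u hu v hv
    by_cases hex : ∃ t, dig M u t ≠ dig M v t
    · have h1 : ∀ i < Nat.find hex, dig M u i = dig M v i := fun i hi => by
        have := Nat.find_min hex hi
        simpa using this
      have h2 := hsep _ _ (dig_lt hM hu) (dig_lt hM hv) _ h1 (Nat.find_spec hex)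
      refine (abs_sub_le_of_dig hM hu hv _ h1).trans ((hC _).trans ?_)
      exact mul_le_mul_of_nonneg_left (Real.rpow_le_rpow (hr _).le h2 hs'.le) hC0
    · push Not at hex
      have h1 : ∀ t, |u - v| ≤ C * r t ^ (s : ℝ) := fun t =>
        (abs_sub_le_of_dig hM hu hv t (fun i _ => hex i)).trans (hC t)
      have h2 : Filter.Tendsto (fun t => C * r t ^ (s : ℝ)) Filter.atTop (nhds (C * 0 ^ (s : ℝ))) :=
        (hr0.rpow_const (Or.inr hs'.le)).const_mul C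
      rw [Real.zero_rpow hs'.ne', mul_zero] at h2
      exact (ge_of_tendsto' h2 h1).trans (by positivity)
  have hinj : Set.InjOn Ψ (Set.Ico 0 1) := by
    intro u hu v hv huv
    have := key u hu v hv
    rw [huv, sub_self, abs_zero, Real.zero_rpow hs'.ne', mul_zero] at this
    exact sub_eq_zero.mp (abs_nonpos_iff.mp this)
  set ψ : ℝ → ℝ := Function.invFunOn Ψ (Set.Ico 0 1) with hψ
  have hinv : ∀ u ∈ Set.Ico (0 : ℝ) 1, ψ (Ψ u) = u := fun u hu => hinj.leftInvOn_invFunOn hu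
  have hH : HolderOnWith C.toNNReal s ψ (Ψ '' Set.Ico 0 1) := by
    rintro _ ⟨u, hu, rfl⟩ _ ⟨v, hv, rfl⟩
    rw [hinv u hu, hinv v hv, edist_dist, edist_dist, Real.dist_eq, Real.dist_eq,
      ENNReal.ofReal_rpow_of_nonneg (abs_nonneg _) hs'.le, ← ENNReal.ofReal_coe_nnreal,
      ← ENNReal.ofReal_mul (NNReal.coe_nonneg _), Real.coe_toNNReal _ hC0]
    exact ENNReal.ofReal_le_ofReal (key u hu v hv)
  have h1 := hH.dimH_image_le hs
  have h2 : ψ '' (Ψ '' Set.Ico 0 1) = Set.Ico 0 1 := hinj.invFunOn_image subset_rfl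
  have h3 : dimH (Set.Ico (0 : ℝ) 1) = 1 := by
    rw [Real.dimH_of_nonempty_interior (by rw [interior_Ico]; exact ⟨1 / 2, by norm_num⟩)]
    simp
  rw [h2, h3] at h1
  have h4 : dimH (Ψ '' Set.Ico 0 1) ≤ dimH A := by
    apply dimH_mono
    rintro _ ⟨u, hu, rfl⟩
    exact hA _ (dig_lt hM hu)
  rw [ENNReal.le_div_iff_mul_le (Or.inl (by exact_mod_cast hs.ne')) (Or.inl ENNReal.coe_ne_top),
    one_mul] at h1
  exact h1.trans h4

end Pool.Agent.MP_2cd596_an.H55
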