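import Mathlib

set_option autoImplicit false

namespace Pool.Agent.MP_2cd596_an.H55

open Finset

/-- Quadratic residues scaled to the unit interval. -/
noncomputable def psi (P j : ℕ) : ℝ := ((j ^ 2 % P : ℕ) : ℝ) / P

theorem psi_nonneg (P j : ℕ) : 0 ≤ psi P j := by unfold psi; positivity

theorem psi_lt_one {P : ℕ} (hP : 0 < P) (j : ℕ) : psi P j < 1 := by
  unfold psi
  rw [div_lt_one (by exact_mod_cast hP)]
  exact_mod_cast Nat.mod_lt _ hP

/-- No conflict between two particles. -/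
def NR (P : ℕ) (c L : ℝ) (j j' : ℕ) : Prop :=
  ∀ z : ℤ, 1 / (2 * (P : ℝ)) ≤ |psi P j - psi P j' - c * ((j : ℝ) - j') + z * L|

theorem NR.symm {P : ℕ} {c L : ℝ} {j j' : ℕ} (h : NR P c L j j') : NR P c L j' j := by
  intro z
  have := h (-z)
  rw [← abs_neg] at this
  convert this using 2
  push_cast
  ring

theorem sidon {P : ℕ} (hP : P.Prime) (h2 : 2 < P) {a a' b b' : ℕ} (ha : a < P) (ha' : a' < P)
    (hb' : b' < P) (hd : (a : ℤ) - a' = b - b') (hne : a ≠ a') (hne' : a' ≠ b') :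
    1 / (P : ℝ) ≤ |(psi P a - psi P a') - (psi P b - psi P b')| := by
  have := Fact.mk hP
  have hP0 : (0 : ℝ) < P := by exact_mod_cast hP.pos
  set z : ℤ := ((a ^ 2 % P : ℕ) - (a' ^ 2 % P : ℕ)) - ((b ^ 2 % P : ℕ) - (b' ^ 2 % P : ℕ)) with hz
  have hz0 : z ≠ 0 := by
    intro h0
    have h1 : ((z : ℤ) : ZMod P) = 0 := by rw [h0]; simp
    rw [hz] at h1
    simp only [Int.cast_sub, Int.cast_natCast, ZMod.natCast_mod, Nat.cast_pow] at h1
    have h3 : ((a : ZMod P) - a') = b - b' := by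
      have := congrArg (fun t : ℤ => (t : ZMod P)) hd
      simpa using this
    have h4 : (a : ZMod P) - a' ≠ 0 := by
      intro h
      exact hne ((ZMod.natCast_eq_natCast_iff' a a' P).mp (sub_eq_zero.mp h) |> fun h' => by
        rwa [Nat.mod_eq_of_lt ha, Nat.mod_eq_of_lt ha'] at h')
    have h5 : (2 : ZMod P) ≠ 0 := by
      intro h
      have : ((2 : ℕ) : ZMod P) = 0 := by exact_mod_cast h
      rw [ZMod.natCast_eq_zero_iff] at this
      exact absurd (Nat.le_of_dvd two_pos this) (by omega)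
    have h6 : ((a : ZMod P) - a') * (2 * ((a' : ZMod P) - b')) = 0 := by
      have hb : (b : ZMod P) = a - a' + b' := by rw [h3]; ring
      rw [hb] at h1
      linear_combination h1
    have h7 : (a' : ZMod P) - b' = 0 :=
      (mul_eq_zero.mp ((mul_eq_zero.mp h6).resolve_left h4)).resolve_left h5
    exact hne' ((ZMod.natCast_eq_natCast_iff' a' b' P).mp (sub_eq_zero.mp h7) |> fun h' => by
      rwa [Nat.mod_eq_of_lt ha', Nat.mod_eq_of_lt hb'] at h')
  have h1 : (1 : ℝ) ≤ |(z : ℝ)| := by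
    have := Int.one_le_abs hz0
    exact_mod_cast this
  have h2 : (psi P a - psi P a') - (psi P b - psi P b') = (z : ℝ) / P := by
    rw [hz]
    unfold psi
    simp only [Int.cast_sub, Int.cast_natCast]
    ring
  rw [h2, abs_div, abs_of_pos hP0]
  exact div_le_div_of_nonneg_right h1 hP0.le

open Classical in
theorem conflict_count {P : ℕ} (hP : P.Prime) (h2 : 2 < P) {m : ℕ} (hm : m ≤ P) (c : ℝ) {L : ℝ}
    (hL : 0 < L) {E : ℕ} (hE : 4 / L ≤ E) :
    #{p ∈ range m ×ˢ range m | p.1 ≠ p.2 ∧ ¬ NR P c L p.1 p.2} ≤ 2 * m * E := by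
  have hP0 : (0 : ℝ) < P := by exact_mod_cast hP.pos
  have hP1 : (1 : ℝ) ≤ P := by exact_mod_cast hP.pos
  have hex : ∀ p : ℕ × ℕ, ∃ z : ℤ, ¬ NR P c L p.1 p.2 →
      |psi P p.1 - psi P p.2 - c * ((p.1 : ℝ) - p.2) + z * L| < 1 / (2 * (P : ℝ)) := by
    intro p
    by_cases h : NR P c L p.1 p.2
    · exact ⟨0, fun h' => absurd h h'⟩
    · unfold NR at h
      push Not at h
      obtain ⟨z, hz⟩ := h
      exact ⟨z, fun _ => hz⟩
  choose z hz using hex
  have hδ : 1 / (2 * (P : ℝ)) ≤ 1 := by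
    rw [div_le_one (by positivity)]; linarith
  have hcard : #((Ico (-(m : ℤ)) m) ×ˢ (Ico (0 : ℤ) E)) = 2 * m * E := by
    rw [card_product, Int.card_Ico, Int.card_Ico]
    have : ((m : ℤ) - -(m : ℤ)).toNat = 2 * m := by omega
    rw [this]
    simp
  rw [← hcard]
  apply card_le_card_of_injOn
    (fun p : ℕ × ℕ => ((p.1 : ℤ) - p.2, z p - ⌈(c * ((p.1 : ℝ) - p.2) - 2) / L⌉))
  · intro p hp
    simp only [coe_filter, mem_product, mem_range, Set.mem_ofPred_eq] at hp
    obtain ⟨⟨h1, h1'⟩, -, h3⟩ := hp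
    have h4 := hz p h3
    rw [abs_lt] at h4
    have a1 := psi_nonneg P p.1
    have a2 := psi_nonneg P p.2
    have a3 := psi_lt_one hP.pos p.1
    have a4 := psi_lt_one hP.pos p.2
    simp only [coe_product, coe_Ico, Set.mem_prod, Set.mem_Ico]
    refine ⟨⟨by omega, by omega⟩, ?_, ?_⟩
    · rw [sub_nonneg, Int.ceil_le, div_le_iff₀ hL]
      linarith [h4.1]
    · have b1 := Int.le_ceil ((c * ((p.1 : ℝ) - p.2) - 2) / L)
      have b2 : (z p : ℝ) < (c * ((p.1 : ℝ) - p.2) - 2) / L + 4 / L := by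
        rw [← add_div, lt_div_iff₀ hL]
        linarith [h4.2]
      have b3 : ((z p - ⌈(c * ((p.1 : ℝ) - p.2) - 2) / L⌉ : ℤ) : ℝ) < ((E : ℤ) : ℝ) := by
        push_cast
        linarith
      exact_mod_cast b3
  · intro p hp q hq hpq
    simp only [coe_filter, mem_product, mem_range, Set.mem_ofPred_eq] at hp hq
    obtain ⟨⟨h1, h1'⟩, hne, h3⟩ := hp
    obtain ⟨⟨g1, g1'⟩, -, g3⟩ := hq
    simp only [Prod.mk.injEq] at hpq
    obtain ⟨e1, e2⟩ := hpq
    have e1' : (p.1 : ℝ) - p.2 = (q.1 : ℝ) - q.2 := by exact_mod_cast e1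
    rw [e1'] at e2
    have e3 : z p = z q := by omega
    by_cases hs : p.2 = q.2
    · exact Prod.ext (by omega) hs
    exfalso
    have s1 := sidon hP h2 (b := q.1) (by omega : p.1 < P) (by omega : p.2 < P)
      (by omega : q.2 < P) e1 hne hs
    have h4 := hz p h3
    have g4 := hz q g3
    rw [e1', e3] at h4
    rw [abs_lt] at h4 g4
    have : |(psi P p.1 - psi P p.2) - (psi P q.1 - psi P q.2)| < 1 / (P : ℝ) := by
      have : 1 / (P : ℝ) = 1 / (2 * (P : ℝ)) + 1 / (2 * (P : ℝ)) := by field_simp; ring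
      rw [this, abs_lt]
      constructor <;> linarith [h4.1, h4.2, g4.1, g4.2]
    linarith

open Classical in
theorem exists_indep {R : ℕ → ℕ → Prop} (hR : ∀ a b, R a b → R b a) {m D T M : ℕ} (hT : 0 < T)
    (hD : #{p ∈ range m ×ˢ range m | p.1 ≠ p.2 ∧ R p.1 p.2} ≤ D) {U : Finset ℕ}
    (hU : U ⊆ range m) (hsz : T * T * M + D ≤ T * #U) :
    ∃ I ⊆ U, M ≤ #I ∧ ∀ a ∈ I, ∀ b ∈ I, a ≠ b → ¬ R a b := by
  set nb : ℕ → Finset ℕ := fun a => {b ∈ range m | a ≠ b ∧ R a b} with hnb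
  have hsum : ∑ a ∈ range m, #(nb a) ≤ D := by
    refine le_trans (le_of_eq ?_) hD
    rw [card_filter, sum_product]
    refine sum_congr rfl fun a _ => ?_
    rw [hnb, card_filter]
  set Hs : Finset ℕ := {a ∈ range m | T ≤ #(nb a)} with hHs
  have hH : T * #Hs ≤ D := by
    refine le_trans ?_ hsum
    rw [mul_comm, ← smul_eq_mul]
    refine le_trans (card_nsmul_le_sum Hs (fun a => #(nb a)) T ?_) ?_
    · intro a ha
      exact (mem_filter.mp ha).2
    · exact sum_le_sum_of_subset (filter_subset _ _)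
  set U' := U \ Hs with hU'
  obtain ⟨I, hI, hmax⟩ := exists_max_image
    {J ∈ U'.powerset | ∀ a ∈ J, ∀ b ∈ J, a ≠ b → ¬ R a b} card ⟨∅, by simp⟩
  simp only [mem_filter, mem_powerset] at hI
  refine ⟨I, hI.1.trans sdiff_subset, ?_, hI.2⟩
  have hcov : U' ⊆ I.biUnion (fun i => insert i (nb i)) := by
    intro u hu
    by_contra hn
    simp only [mem_biUnion, mem_insert, not_exists, not_and, not_or] at hn
    have huI : u ∉ I := fun h => (hn u h).1 rfl
    have hum : u ∈ range m := hU (mem_sdiff.mp hu).1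
    have hnr : ∀ i ∈ I, ¬ R i u := by
      intro i hi hr
      exact (hn i hi).2 (mem_filter.mpr ⟨hum, fun h => (hn i hi).1 h.symm, hr⟩)
    have := hmax (insert u I) (by
      simp only [mem_filter, mem_powerset]
      refine ⟨insert_subset hu hI.1, ?_⟩
      intro a ha b hb hab
      rw [mem_insert] at ha hb
      rcases ha with rfl | ha <;> rcases hb with rfl | hb
      · exact absurd rfl hab
      · exact fun h => hnr b hb (hR _ _ h)
      · exact hnr a ha
      · exact hI.2 a ha b hb hab)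
    rw [card_insert_of_notMem huI] at this
    omega
  have h1 : #U' ≤ #I * T := by
    refine (card_le_card hcov).trans (card_biUnion_le_card_mul _ _ _ ?_)
    intro i hi
    have hi' := mem_sdiff.mp (hI.1 hi)
    have : ¬ T ≤ #(nb i) := fun h => hi'.2 (mem_filter.mpr ⟨hU hi'.1, h⟩)
    exact (card_insert_le _ _).trans (by omega)
  have h2 : #U ≤ #U' + #Hs := by
    rw [hU']
    exact card_le_card_sdiff_add_card
  have h3 : T * T * M ≤ T * T * #I := by
    have := Nat.mul_le_mul_left T h1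
    have := Nat.mul_le_mul_left T h2
    nlinarith
  exact Nat.le_of_mul_le_mul_left h3 (Nat.mul_pos hT hT)

theorem exists_enum {I : Finset ℕ} {M : ℕ} (h : M ≤ #I) :
    ∃ ι : ℕ → ℕ, (∀ e < M, ι e ∈ I) ∧ ∀ e < M, ∀ e' < M, e ≠ e' → ι e ≠ ι e' := by
  refine ⟨fun e => if he : e < M then I.orderEmbOfCardLe h ⟨e, he⟩ else 0, fun e he => ?_,
    fun e he e' he' hne => ?_⟩
  · simp only [dif_pos he]
    exact orderEmbOfCardLe_mem _ _ _
  · simp only [dif_pos he, dif_pos he']
    intro h'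
    have := (I.orderEmbOfCardLe h).injective h'
    exact hne (by simpa using this)

end Pool.Agent.MP_2cd596_an.H55
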