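import Mathlib
import Pool.Agent.MP_2cd596_an.H55.Indep

set_option autoImplicit false

namespace Pool.Agent.MP_2cd596_an.H55

open Finset

def ep (n : ℕ) : ℕ := Nat.sqrt (Nat.log 2 n)
def mm (g : ℕ) : ℕ := 2 ^ (g ^ 2 - g)
def lam (g : ℕ) : ℕ := (g + 1) ^ 2 + g + 1
theorem mm_pos (g : ℕ) : 0 < mm g := by unfold mm; positivity
noncomputable def PP (g : ℕ) : ℕ :=
  (Nat.exists_prime_lt_and_le_two_mul (mm g) (mm_pos g).ne').choose
theorem PP_spec (g : ℕ) : (PP g).Prime ∧ mm g < PP g ∧ PP g ≤ 2 * mm g :=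
  (Nat.exists_prime_lt_and_le_two_mul (mm g) (mm_pos g).ne').choose_spec
def st (n : ℕ) : ℕ := mm (ep n) * (n / mm (ep n))
def pos (n : ℕ) : ℕ := n % mm (ep n)
def tau (n : ℕ) : ℕ := ∑ i ∈ range n, lam (ep i)
/-- The coefficients of the power series. -/
noncomputable def aa (n : ℕ) : ℝ := (1 / 2) ^ (tau (st n)) * Real.exp (psi (PP (ep n)) (pos n))

theorem le_ep {g n : ℕ} (h : 2 ^ (g ^ 2) ≤ n) : g ≤ ep n := by
  unfold ep
  rw [Nat.le_sqrt']
  exact Nat.le_log_of_pow_le one_lt_two h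

theorem ep_upper (n : ℕ) : n < 2 ^ ((ep n + 1) ^ 2) := by
  by_contra h
  have := le_ep (not_lt.mp h)
  omega

theorem ep_lower {n : ℕ} (hn : n ≠ 0) : 2 ^ (ep n ^ 2) ≤ n := by
  refine le_trans (Nat.pow_le_pow_right two_pos ?_) (Nat.pow_log_le_self 2 hn)
  exact Nat.sqrt_le' _

theorem ep_of_mem {g n : ℕ} (h1 : 2 ^ (g ^ 2) ≤ n) (h2 : n < 2 ^ ((g + 1) ^ 2)) : ep n = g := by
  have h3 := le_ep h1
  have hn : n ≠ 0 := by
    have : 0 < 2 ^ (g ^ 2) := by positivity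
    omega
  have h4 := (ep_lower hn).trans_lt h2
  rw [Nat.pow_lt_pow_iff_right one_lt_two, Nat.pow_lt_pow_iff_left two_ne_zero] at h4
  omega

theorem ep_mono {n n' : ℕ} (h : n ≤ n') : ep n ≤ ep n' :=
  Nat.sqrt_le_sqrt (Nat.log_mono_right h)

theorem st_add_pos (n : ℕ) : st n + pos n = n := Nat.div_add_mod n _

theorem pos_lt (n : ℕ) : pos n < mm (ep n) := Nat.mod_lt _ (mm_pos _)

theorem mm_dvd {g k : ℕ} (h : g ^ 2 ≤ k) : mm g ∣ 2 ^ k :=
  Nat.pow_dvd_pow 2 (by omega)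

theorem mm_mul (g : ℕ) : mm g * 2 ^ g = 2 ^ (g ^ 2) := by
  unfold mm
  rw [← pow_add]
  congr 1
  have : g ≤ g ^ 2 := by nlinarith
  omega

theorem st_lower {n : ℕ} (hn : n ≠ 0) : 2 ^ (ep n ^ 2) ≤ st n := by
  have h1 := ep_lower hn
  unfold st
  rw [← mm_mul] at h1 ⊢
  apply Nat.mul_le_mul_left
  rw [Nat.le_div_iff_mul_le (mm_pos _)]
  linarith

theorem st_upper (n : ℕ) : st n + mm (ep n) ≤ 2 ^ ((ep n + 1) ^ 2) := by
  have h1 := ep_upper n
  obtain ⟨k, hk⟩ := mm_dvd (g := ep n) (k := (ep n + 1) ^ 2)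
    (Nat.pow_le_pow_left (Nat.le_succ _) 2)
  unfold st
  rw [hk] at h1 ⊢
  have : n / mm (ep n) < k := by
    rw [Nat.div_lt_iff_lt_mul (mm_pos _)]
    linarith
  calc _ = mm (ep n) * (n / mm (ep n) + 1) := by ring
    _ ≤ _ := Nat.mul_le_mul_left _ this

theorem block {n j : ℕ} (hj : j < mm (ep n)) :
    ep (st n + j) = ep n ∧ st (st n + j) = st n ∧ pos (st n + j) = j := by
  have h1 : ep (st n + j) = ep n := by
    rcases eq_or_ne n 0 with rfl | hn
    · have h0 : ep 0 = 0 := by simp [ep]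
      rw [h0] at hj
      have : j = 0 := by simpa [mm] using hj
      subst this
      simp [st]
    · exact ep_of_mem ((st_lower hn).trans (Nat.le_add_right _ _))
        (lt_of_lt_of_le (by omega) (st_upper n))
  refine ⟨h1, ?_, ?_⟩
  · conv_lhs => rw [st, h1]
    rw [st, Nat.mul_add_div (mm_pos _), Nat.div_eq_of_lt hj, add_zero]
  · rw [pos, h1, st, Nat.mul_add_mod, Nat.mod_eq_of_lt hj]

theorem ep_st (n : ℕ) : ep (st n) = ep n := by simpa using (block (mm_pos (ep n))).1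

theorem succ_block {t : ℕ} (h : pos (t + 1) ≠ 0) :
    ep t = ep (t + 1) ∧ st t = st (t + 1) ∧ pos t + 1 = pos (t + 1) := by
  have h1 := st_add_pos (t + 1)
  have h2 := pos_lt (t + 1)
  have h3 := block (n := t + 1) (j := pos (t + 1) - 1) (by omega)
  rw [show st (t + 1) + (pos (t + 1) - 1) = t by omega] at h3
  exact ⟨h3.1, h3.2.1, by omega⟩

theorem succ_new {t : ℕ} (h : pos (t + 1) = 0) :
    st (t + 1) = t + 1 ∧ pos t + 1 = mm (ep t) := by
  have h1 := st_add_pos (t + 1)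
  refine ⟨by omega, ?_⟩
  have h2 := pos_lt t
  by_contra hn
  have h3 := block (n := t) (j := pos t + 1) (by omega)
  have h4 := st_add_pos t
  rw [show st t + (pos t + 1) = t + 1 by omega] at h3
  omega

theorem st_ge {g n : ℕ} (h : 2 ^ (g ^ 2) ≤ n) : 2 ^ (g ^ 2) ≤ st n := by
  have hn : n ≠ 0 := by
    have : 0 < 2 ^ (g ^ 2) := by positivity
    omega
  refine le_trans (Nat.pow_le_pow_right two_pos ?_) (st_lower hn)
  exact Nat.pow_le_pow_left (le_ep h) 2

theorem st_le (n : ℕ) : st n ≤ n := by have := st_add_pos n; omega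

theorem mm_le_st {n : ℕ} (hn : n ≠ 0) : mm (ep n) * 2 ^ ep n ≤ st n := by
  rw [mm_mul]; exact st_lower hn

theorem le_two_st (n : ℕ) : n ≤ 2 * st n := by
  rcases eq_or_ne n 0 with rfl | hn
  · simp
  have h1 := mm_le_st hn
  have h2 := st_add_pos n
  have h3 := pos_lt n
  have h4 : mm (ep n) ≤ mm (ep n) * 2 ^ ep n := Nat.le_mul_of_pos_right _ (by positivity)
  omega

theorem two_le_lam (g : ℕ) : 2 ≤ lam g := by unfold lam; nlinarith

theorem tau_succ (n : ℕ) : tau (n + 1) = tau n + lam (ep n) := sum_range_succ _ _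

theorem tau_add_le (N k : ℕ) : tau N + 2 * k ≤ tau (N + k) := by
  induction k with
  | zero => simp
  | succ k ih =>
    rw [← add_assoc, tau_succ]
    have := two_le_lam (ep (N + k))
    omega

theorem tau_block {n j : ℕ} (hj : j ≤ mm (ep n)) : tau (st n + j) = tau (st n) + j * lam (ep n) := by
  induction j with
  | zero => simp
  | succ j ih =>
    rw [← add_assoc, tau_succ, ih (by omega), (block (n := n) (j := j) (by omega)).1]
    ring

theorem aa_pos (n : ℕ) : 0 < aa n := by unfold aa; positivity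

theorem aa_ge (n : ℕ) : (1 / 2 : ℝ) ^ (tau (st n)) ≤ aa n := by
  unfold aa
  exact le_mul_of_one_le_right (by positivity) (Real.one_le_exp (psi_nonneg _ _))

theorem aa_le (n : ℕ) : aa n ≤ 3 * (1 / 2 : ℝ) ^ (tau (st n)) := by
  unfold aa
  rw [mul_comm]
  apply mul_le_mul_of_nonneg_right _ (by positivity)
  have h1 := psi_lt_one (PP_spec (ep n)).1.pos (pos n)
  have h2 := Real.exp_one_lt_d9
  have h3 := Real.exp_le_exp.mpr h1.le
  linarith

theorem aa_tail {N n : ℕ} (h : N ≤ st n) :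
    aa n ≤ 3 * (1 / 2 : ℝ) ^ (tau N) * 4 ^ N * (1 / 2) ^ n := by
  obtain ⟨k, hk⟩ := Nat.exists_eq_add_of_le h
  have h1 := tau_add_le N k
  have h2 := le_two_st n
  rw [← hk] at h1
  refine (aa_le n).trans ?_
  have h3 : (1 / 2 : ℝ) ^ (tau (st n) + 2 * N) ≤ (1 / 2) ^ (tau N + n) :=
    pow_le_pow_of_le_one (by norm_num) (by norm_num) (by omega)
  have h4 : (1 / 2 : ℝ) ^ (2 * N) * 4 ^ N = 1 := by
    rw [pow_mul, ← mul_pow]; norm_num
  rw [pow_add, pow_add] at h3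
  have h5 := mul_le_mul_of_nonneg_right h3 (show (0 : ℝ) ≤ 4 ^ N by positivity)
  rw [mul_assoc, h4] at h5
  linarith

theorem aa_summable : Summable aa := by
  refine Summable.of_nonneg_of_le (fun n => (aa_pos n).le) (fun n => aa_tail (N := 0) (by omega)) ?_
  exact summable_geometric_two.mul_left _

theorem aa_tsum_tail (g : ℕ) :
    ∑' n, aa (n + 2 ^ (g ^ 2)) ≤ 6 * (1 / 2 : ℝ) ^ (tau (2 ^ (g ^ 2))) * 4 ^ (2 ^ (g ^ 2)) := by
  set N := 2 ^ (g ^ 2) with hN
  have h1 : ∀ n, aa (n + N) ≤ 3 * (1 / 2 : ℝ) ^ (tau N) * 4 ^ N * (1 / 2) ^ n := by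
    intro n
    refine (aa_tail (N := N) (st_ge (Nat.le_add_left _ _))).trans ?_
    apply mul_le_mul_of_nonneg_left _ (by positivity)
    exact pow_le_pow_of_le_one (by norm_num) (by norm_num) (Nat.le_add_right _ _)
  refine (Summable.tsum_le_tsum h1 ((summable_nat_add_iff N).mpr aa_summable)
    (summable_geometric_two.mul_left _)).trans (le_of_eq ?_)
  rw [tsum_mul_left, tsum_geometric_two]
  ring

end Pool.Agent.MP_2cd596_an.H55
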