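import Mathlib
import Pool.Agent.MP_2cd596_an.H55.Params

set_option autoImplicit false

namespace Pool.Agent.MP_2cd596_an.H55

open Finset Filter Topology

def lo (g : ℕ) : ℕ := 2 ^ (g ^ 2 - 2 * g)
def mu (g : ℕ) : ℕ := g ^ 2 - 4 * g - 1
def radb (g i : ℕ) : ℕ := if i + lo g < mm g then mu g else 0

theorem lo_pos (g : ℕ) : 0 < lo g := by unfold lo; positivity

theorem lo_mul {g : ℕ} (hg : 5 ≤ g) : lo g * 2 ^ g = mm g := by
  unfold lo mm
  rw [← pow_add]
  congr 1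
  have : 5 * g ≤ g ^ 2 := by nlinarith
  omega

theorem exists_sel {g E : ℕ} (hg : 5 ≤ g) (hE4 : 4 * E ≤ 2 ^ g) (c : ℝ) {L : ℝ} (hL : 0 < L)
    (hE : 4 / L ≤ E) (S : Finset ℕ) :
    ∃ ι : ℕ → ℕ, #S < mm g → (∀ e < 2 ^ radb g #S, ι e < mm g ∧ ι e ∉ S) ∧
      ∀ e < 2 ^ radb g #S, ∀ e' < 2 ^ radb g #S, e ≠ e' → NR (PP g) c L (ι e) (ι e') := by
  classical
  by_cases hS : #S < mm g
  swap
  · exact ⟨fun _ => 0, fun h => absurd h hS⟩
  have hU : mm g ≤ #(range (mm g) \ S) + #S := by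
    have := card_le_card_sdiff_add_card (s := range (mm g)) (t := S)
    rwa [card_range] at this
  have h5 : 5 * g ≤ g ^ 2 := by nlinarith
  by_cases ha : #S + lo g < mm g
  · have hP := PP_spec g
    have hm2 : 2 ≤ mm g := by
      unfold mm
      calc 2 = 2 ^ 1 := by norm_num
        _ ≤ _ := Nat.pow_le_pow_right two_pos (by omega)
    have hcnt := conflict_count hP.1 (by omega) hP.2.1.le c hL hE
    have hsz : 2 ^ (2 * g) * 2 ^ (2 * g) * 2 ^ mu g + 2 * mm g * E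
        ≤ 2 ^ (2 * g) * #(range (mm g) \ S) := by
      have e1 : 2 ^ (2 * g) * 2 ^ (2 * g) * 2 ^ mu g * 2 = 2 ^ (g ^ 2) := by
        rw [← pow_add, ← pow_add, ← pow_succ]
        congr 1
        unfold mu
        omega
      have e2 : 2 ^ (2 * g) * lo g = 2 ^ (g ^ 2) := by
        unfold lo
        rw [← pow_add]
        congr 1
        omega
      have e3 := mm_mul g
      have e4 : 2 ^ (2 * g) * lo g ≤ 2 ^ (2 * g) * #(range (mm g) \ S) :=
        Nat.mul_le_mul_left _ (by omega)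
      have e5 : mm g * (4 * E) ≤ mm g * 2 ^ g := Nat.mul_le_mul_left _ hE4
      nlinarith
    obtain ⟨I, hI, hM, hind⟩ := exists_indep (R := fun a b => ¬ NR (PP g) c L a b)
      (fun a b h h' => h h'.symm) (by positivity) (by convert hcnt) sdiff_subset hsz
    obtain ⟨ι, h1, h2⟩ := exists_enum hM
    refine ⟨ι, fun _ => ?_⟩
    rw [radb, if_pos ha]
    refine ⟨fun e he => ?_, fun e he e' he' hne => ?_⟩
    · have := mem_sdiff.mp (hI (h1 e he))
      exact ⟨mem_range.mp this.1, this.2⟩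
    · exact not_not.mp (hind _ (h1 e he) _ (h1 e' he') (h2 e he e' he' hne))
  · obtain ⟨u, hu⟩ : (range (mm g) \ S).Nonempty := card_pos.mp (by omega)
    refine ⟨fun _ => u, fun _ => ?_⟩
    rw [radb, if_neg ha]
    refine ⟨fun e _ => ?_, fun e he e' he' hne => ?_⟩
    · have := mem_sdiff.mp hu
      exact ⟨mem_range.mp this.1, this.2⟩
    · omega

/-- The scale of slot `t`. -/
noncomputable def sig (y : ℝ) (t : ℕ) : ℝ := (1 / 2) ^ (tau t) * y ^ (st t + mm (ep t))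

theorem sig_pos {y : ℝ} (hy : 0 < y) (t : ℕ) : 0 < sig y t := by unfold sig; positivity

theorem en_mono (t : ℕ) : st t + mm (ep t) ≤ st (t + 1) + mm (ep (t + 1)) := by
  by_cases h : pos (t + 1) = 0
  · have h1 := succ_new h
    have h2 := st_add_pos t
    omega
  · have h1 := succ_block h
    rw [h1.1, h1.2.1]

theorem sig_succ {y : ℝ} (hy : 0 < y) (hy1 : y ≤ 1) (t : ℕ) :
    sig y (t + 1) ≤ (1 / 2) ^ (lam (ep t)) * sig y t := by
  unfold sig
  rw [tau_succ, pow_add]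
  have := pow_le_pow_of_le_one hy.le hy1 (en_mono t)
  calc _ ≤ (1 / 2 : ℝ) ^ tau t * (1 / 2) ^ lam (ep t) * y ^ (st t + mm (ep t)) :=
        mul_le_mul_of_nonneg_left this (by positivity)
    _ = _ := by ring

theorem sig_add {y : ℝ} (hy : 0 < y) (hy1 : y ≤ 1) (t k : ℕ) :
    sig y (k + t) ≤ sig y t * (1 / 2) ^ k := by
  induction k with
  | zero => simp
  | succ k ih =>
    rw [show k + 1 + t = (k + t) + 1 by ring]
    refine (sig_succ hy hy1 _).trans ?_
    have h1 : (1 / 2 : ℝ) ^ (lam (ep (k + t))) ≤ (1 / 2) ^ 1 :=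
      pow_le_pow_of_le_one (by norm_num) (by norm_num) (by have := two_le_lam (ep (k + t)); omega)
    have h2 := mul_le_mul h1 ih (sig_pos hy _).le (by norm_num)
    refine h2.trans (le_of_eq ?_)
    ring

theorem exists_digit {y ρ : ℝ} (hy : 0 < y) (hy1 : y ≤ 1) (hρ : 0 < ρ) (hρ1 : ρ ≤ 1) {t : ℕ}
    (ht : t ≠ 0) (hc : 3 * ρ ^ (2 ^ ep t) ≤ (1 / 2) ^ (lam (ep t)) * y) {j : ℕ}
    (hj : j < mm (ep t)) :
    ∃ d ≤ st t + j, ρ * sig y t ≤ aa (st t + j) * y ^ (st t + j) * ρ ^ d ∧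
      aa (st t + j) * y ^ (st t + j) * ρ ^ d ≤ sig y t := by
  classical
  have hb := block hj
  have htau : tau t = tau (st t) + pos t * lam (ep t) := by
    rw [← tau_block (pos_lt t).le, st_add_pos]
  have hs := sig_pos hy t
  have hup : aa (st t + j) * y ^ (st t + j) * ρ ^ (st t + j) ≤ sig y t := by
    have a1 := aa_le (st t + j)
    rw [hb.2.1] at a1
    have a2 : y ^ (st t + j) ≤ y ^ (st t) := pow_le_pow_of_le_one hy.le hy1 (by omega)
    have a3 : ρ ^ (st t + j) ≤ (ρ ^ (2 ^ ep t)) ^ mm (ep t) := by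
      rw [← pow_mul]
      apply pow_le_pow_of_le_one hρ.le hρ1
      have := mm_le_st ht
      rw [mul_comm]
      omega
    have a4 : (3 : ℝ) * (ρ ^ (2 ^ ep t)) ^ mm (ep t) ≤ ((1 / 2) ^ (lam (ep t)) * y) ^ mm (ep t) := by
      refine le_trans ?_ (pow_le_pow_left₀ (by positivity) hc _)
      rw [mul_pow]
      apply mul_le_mul_of_nonneg_right _ (by positivity)
      exact le_self_pow₀ (by norm_num) (mm_pos _).ne'
    have a5 : (1 / 2 : ℝ) ^ (tau (st t) + lam (ep t) * mm (ep t)) ≤ (1 / 2) ^ (tau t) := by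
      apply pow_le_pow_of_le_one (by norm_num) (by norm_num)
      rw [htau, mul_comm (lam _)]
      exact Nat.add_le_add_left (Nat.mul_le_mul_right _ (pos_lt t).le) _
    calc _ ≤ (3 * (1 / 2 : ℝ) ^ (tau (st t))) * y ^ (st t) * (ρ ^ (2 ^ ep t)) ^ mm (ep t) := by
          gcongr
      _ = (1 / 2 : ℝ) ^ (tau (st t)) * y ^ (st t) * (3 * (ρ ^ (2 ^ ep t)) ^ mm (ep t)) := by ring
      _ ≤ (1 / 2 : ℝ) ^ (tau (st t)) * y ^ (st t) * ((1 / 2) ^ (lam (ep t)) * y) ^ mm (ep t) := by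
          gcongr
      _ = (1 / 2 : ℝ) ^ (tau (st t) + lam (ep t) * mm (ep t)) * y ^ (st t + mm (ep t)) := by
          rw [mul_pow, ← pow_mul, pow_add, pow_add]; ring
      _ ≤ _ := mul_le_mul_of_nonneg_right a5 (by positivity)
  have hlow : sig y t ≤ aa (st t + j) * y ^ (st t + j) := by
    have a1 := aa_ge (st t + j)
    rw [hb.2.1] at a1
    have a2 : y ^ (st t + mm (ep t)) ≤ y ^ (st t + j) := pow_le_pow_of_le_one hy.le hy1 (by omega)
    have a3 : (1 / 2 : ℝ) ^ (tau t) ≤ (1 / 2) ^ (tau (st t)) :=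
      pow_le_pow_of_le_one (by norm_num) (by norm_num) (by omega)
    exact mul_le_mul (a3.trans a1) a2 (by positivity) (aa_pos _).le
  have hex : ∃ d, aa (st t + j) * y ^ (st t + j) * ρ ^ d ≤ sig y t := ⟨_, hup⟩
  refine ⟨Nat.find hex, Nat.find_min' hex hup, ?_, Nat.find_spec hex⟩
  rcases Nat.eq_zero_or_pos (Nat.find hex) with h0 | h0
  · rw [h0, pow_zero, mul_one]
    nlinarith
  · have := Nat.find_min hex (Nat.sub_lt h0 one_pos)
    push Not at this
    rw [show Nat.find hex = (Nat.find hex - 1) + 1 by omega, pow_succ]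
    nlinarith

theorem exp_sep {B s s' l : ℝ} (hB : 0 < B) (h : l ≤ B * Real.exp s) (h' : l ≤ B * Real.exp s') :
    l * |s - s'| ≤ |B * Real.exp s - B * Real.exp s'| := by
  wlog hs : s' ≤ s generalizing s s'
  · rw [abs_sub_comm, abs_sub_comm (B * _)]
    exact this h' h (le_of_not_ge hs)
  have h1 : Real.exp s = Real.exp s' * Real.exp (s - s') := by
    rw [← Real.exp_add]; congr 1; ring
  have h2 := Real.add_one_le_exp (s - s')
  have h3 : 0 < B * Real.exp s' := by positivity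
  rw [abs_of_nonneg (sub_nonneg.mpr hs)]
  refine le_trans ?_ (le_abs_self _)
  rw [h1]
  nlinarith [mul_le_mul_of_nonneg_right h' (sub_nonneg.mpr hs),
    mul_le_mul_of_nonneg_left h2 h3.le]

theorem val_sep {y ρ : ℝ} (hy : 0 < y) (hρ : 0 < ρ) {t j j' d d' : ℕ} (hj : j < mm (ep t))
    (hj' : j' < mm (ep t)) (hN : NR (PP (ep t)) (-Real.log y) (-Real.log ρ) j j') {l : ℝ}
    (hl : 0 ≤ l) (h : l ≤ aa (st t + j) * y ^ (st t + j) * ρ ^ d)
    (h' : l ≤ aa (st t + j') * y ^ (st t + j') * ρ ^ d') :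
    l / (4 * mm (ep t)) ≤
      |aa (st t + j) * y ^ (st t + j) * ρ ^ d - aa (st t + j') * y ^ (st t + j') * ρ ^ d'| := by
  have key : ∀ i e : ℕ, i < mm (ep t) → aa (st t + i) * y ^ (st t + i) * ρ ^ e
      = ((1 / 2) ^ (tau (st t)) * y ^ (st t)) *
        Real.exp (psi (PP (ep t)) i + i * Real.log y + e * Real.log ρ) := by
    intro i e hi
    have hb := block hi
    rw [aa, hb.1, hb.2.1, hb.2.2, Real.exp_add, Real.exp_add, Real.exp_nat_mul, Real.exp_nat_mul,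
      Real.exp_log hy, Real.exp_log hρ, pow_add]
    ring
  rw [key j d hj] at h
  rw [key j' d' hj'] at h'
  rw [key j d hj, key j' d' hj']
  refine le_trans ?_ (exp_sep (by positivity) h h')
  have h1 := hN ((d' : ℤ) - d)
  have h2 : psi (PP (ep t)) j - psi (PP (ep t)) j' - -Real.log y * ((j : ℝ) - j')
      + (((d' : ℤ) - d : ℤ) : ℝ) * -Real.log ρ
      = psi (PP (ep t)) j + j * Real.log y + d * Real.log ρ
        - (psi (PP (ep t)) j' + j' * Real.log y + d' * Real.log ρ) := by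
    push_cast; ring
  rw [h2] at h1
  refine le_trans ?_ (mul_le_mul_of_nonneg_left h1 hl)
  rw [mul_one_div]
  have hP := PP_spec (ep t)
  have h3 : (0 : ℝ) < PP (ep t) := by exact_mod_cast hP.1.pos
  have h4 : (PP (ep t) : ℝ) ≤ 2 * mm (ep t) := by exact_mod_cast hP.2.2
  exact div_le_div_of_nonneg_left hl (by positivity) (by linarith)

theorem sig_gap {y ρ : ℝ} (hy : 0 < y) (hy1 : y ≤ 1) {t : ℕ} (h3 : 3 ≤ ρ * 2 ^ ep t) :
    3 * sig y (t + 1) ≤ ρ * sig y t / (4 * mm (ep t)) := by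
  have h1 := sig_succ hy hy1 t
  have hs := sig_pos hy t
  have hm : (0 : ℝ) < mm (ep t) := by exact_mod_cast mm_pos _
  have h2 : (4 * mm (ep t) * 2 ^ ep t : ℝ) ≤ 2 ^ lam (ep t) := by
    have : 4 * mm (ep t) * 2 ^ ep t ≤ 2 ^ lam (ep t) := by
      rw [mul_assoc, mm_mul, show 4 = 2 ^ 2 by norm_num, ← pow_add]
      apply Nat.pow_le_pow_right two_pos
      unfold lam
      nlinarith
    exact_mod_cast this
  have h4 : (1 / 2 : ℝ) ^ lam (ep t) * 2 ^ lam (ep t) = 1 := by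
    rw [← mul_pow]; norm_num
  rw [le_div_iff₀ (by positivity)]
  have h5 : (0 : ℝ) < (1 / 2) ^ lam (ep t) := by positivity
  have h6 : (0 : ℝ) < 2 ^ ep t := by positivity
  have h7 : (1 / 2 : ℝ) ^ lam (ep t) * (4 * mm (ep t) * 2 ^ ep t) ≤ 1 :=
    (mul_le_mul_of_nonneg_left h2 h5.le).trans h4.le
  have h8 : 3 * ((1 / 2 : ℝ) ^ lam (ep t) * (4 * mm (ep t))) ≤ ρ := by
    apply le_of_mul_le_mul_right _ h6
    nlinarith
  calc 3 * sig y (t + 1) * (4 * mm (ep t))
      ≤ 3 * ((1 / 2) ^ (lam (ep t)) * sig y t) * (4 * mm (ep t)) := by gcongr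
    _ = 3 * ((1 / 2 : ℝ) ^ lam (ep t) * (4 * mm (ep t))) * sig y t := by ring
    _ ≤ _ := mul_le_mul_of_nonneg_right h8 hs.le

theorem eventually_good {y ρ : ℝ} (hy : 0 < y) (hy1 : y ≤ 1) (hρ : 0 < ρ) (hρ1 : ρ < 1) (E : ℕ) :
    ∃ g0 : ℕ, ∀ g, g0 ≤ g → 5 ≤ g ∧ 4 * E ≤ 2 ^ g ∧ 3 * ρ ^ (2 ^ g) ≤ (1 / 2) ^ (lam g) * y ∧
      3 ≤ ρ * 2 ^ g := by
  rw [← eventually_atTop]
  have hL : 0 < -Real.log ρ := by linarith [Real.log_neg hρ hρ1]
  have hc : 0 ≤ -Real.log y := by linarith [Real.log_nonpos hy.le hy1]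
  have t1 := tendsto_pow_atTop_atTop_of_one_lt (one_lt_two (α := ℝ))
  have t2 := (tendsto_pow_const_div_const_pow_of_one_lt 2 (one_lt_two (α := ℝ))).const_mul
    (8 + -Real.log y)
  rw [mul_zero] at t2
  filter_upwards [eventually_ge_atTop 5, eventually_ge_atTop (4 * E),
    t1.eventually_ge_atTop (3 / ρ), t2.eventually (gt_mem_nhds hL)] with g h1 h2 h3 h4
  refine ⟨h1, h2.trans (Nat.lt_two_pow_self).le, ?_, ?_⟩
  · have hg : (5 : ℝ) ≤ g := by exact_mod_cast h1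
    rw [← mul_div_assoc, div_lt_iff₀ (by positivity)] at h4
    have e1 : (3 : ℝ) * ρ ^ (2 ^ g) = Real.exp (Real.log 3 + (2 ^ g : ℕ) * Real.log ρ) := by
      rw [Real.exp_add, Real.exp_nat_mul, Real.exp_log hρ, Real.exp_log (by norm_num)]
    have e2 : (1 / 2 : ℝ) ^ (lam g) * y = Real.exp (lam g * Real.log (1 / 2) + Real.log y) := by
      rw [Real.exp_add, Real.exp_nat_mul, Real.exp_log hy, Real.exp_log (by norm_num)]
    rw [e1, e2, Real.exp_le_exp]
    have a1 : Real.log 3 ≤ 2 := by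
      have := Real.log_le_sub_one_of_pos (show (0 : ℝ) < 3 by norm_num); linarith
    have a2 : -1 ≤ Real.log (1 / 2) := by
      rw [one_div, Real.log_inv]
      have := Real.log_le_sub_one_of_pos (show (0 : ℝ) < 2 by norm_num); linarith
    have a3 : (lam g : ℝ) = (g + 1) ^ 2 + g + 1 := by unfold lam; push_cast; ring
    have a4 : (0 : ℝ) ≤ lam g := Nat.cast_nonneg _
    have a5 := mul_le_mul_of_nonneg_left a2 a4
    have a6 : -Real.log y * 1 ≤ -Real.log y * (g : ℝ) ^ 2 :=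
      mul_le_mul_of_nonneg_left (by nlinarith) hc
    push_cast
    nlinarith
  · rw [div_le_iff₀ hρ] at h3
    linarith

end Pool.Agent.MP_2cd596_an.H55
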