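import Mathlib
import Pool.Agent.MP_2cd596_an.H55.Lower1

set_option autoImplicit false

namespace Pool.Agent.MP_2cd596_an.H55

open Finset Filter Topology

def bits (N0 t : ℕ) : ℕ := if N0 ≤ t then radb (ep t) (pos t) else 0

noncomputable def gam (g : ℕ) : ℝ := (1 - 1 / 2 ^ g) * mu g

theorem bdd_partial {u : ℕ → ℝ} (h : ∀ᶠ i in atTop, u i ≤ 0) :
    ∃ C : ℝ, ∀ t, ∑ i ∈ range t, u i ≤ C := by
  obtain ⟨i0, hi0⟩ := eventually_atTop.mp h
  have hs : Summable (fun i => max (u i) 0) := by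
    apply summable_of_ne_finset_zero (s := range i0)
    intro i hi
    exact max_eq_right (hi0 i (by simpa using hi))
  refine ⟨∑' i, max (u i) 0, fun t => ?_⟩
  exact (sum_le_sum fun i _ => le_max_left _ _).trans
    (hs.sum_le_tsum _ fun i _ => le_max_right _ _)

theorem mm_gam {g : ℕ} (hg : 5 ≤ g) : (mm g : ℝ) * gam g = ((mm g : ℝ) - lo g) * mu g := by
  have h : (lo g : ℝ) * 2 ^ g = mm g := by exact_mod_cast lo_mul hg
  unfold gam
  rw [← h]
  field_simp

theorem bits_sum {g0 : ℕ} (hg0 : 5 ≤ g0) (t : ℕ) :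
    ∑ i ∈ range t, (if 2 ^ (g0 ^ 2) ≤ i then gam (ep i) else 0)
      ≤ ∑ i ∈ range t, (bits (2 ^ (g0 ^ 2)) i : ℝ) := by
  set N0 := 2 ^ (g0 ^ 2) with hN0
  have hz : ∀ t ≤ N0, ∑ i ∈ range t, (bits N0 i : ℝ)
      - ∑ i ∈ range t, (if N0 ≤ i then gam (ep i) else 0) = 0 := by
    intro t ht
    rw [sum_eq_zero, sum_eq_zero, sub_zero]
    · intro i hi
      rw [if_neg (by have := mem_range.mp hi; omega)]
    · intro i hi
      rw [bits, if_neg (by have := mem_range.mp hi; omega)]; simp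
  have key : ∀ t, N0 ≤ t → ∑ i ∈ range t, (bits N0 i : ℝ)
      - ∑ i ∈ range t, (if N0 ≤ i then gam (ep i) else 0)
      = min (pos t : ℝ) ((mm (ep t) : ℝ) - lo (ep t)) * mu (ep t) - pos t * gam (ep t) := by
    intro t ht
    induction t, ht using Nat.le_induction with
    | base =>
      have h1 := st_ge (g := g0) (n := N0) le_rfl
      have h2 := st_add_pos N0
      have h3 : pos N0 = 0 := by omega
      have hg : 5 ≤ ep N0 := hg0.trans (le_ep le_rfl)
      have h4 : (lo (ep N0) : ℝ) ≤ mm (ep N0) := by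
        have := lo_mul hg
        have h5 : lo (ep N0) ≤ lo (ep N0) * 2 ^ ep N0 := Nat.le_mul_of_pos_right _ (by positivity)
        exact_mod_cast (by omega : lo (ep N0) ≤ mm (ep N0))
      rw [hz N0 le_rfl, h3, Nat.cast_zero, min_eq_left (by linarith)]
      simp
    | succ t ht ih =>
      have hg : 5 ≤ ep t := hg0.trans (le_ep ht)
      rw [sum_range_succ, sum_range_succ, if_pos ht, bits, if_pos ht]
      have hl := lo_pos (ep t)
      have hstep : min (pos t : ℝ) ((mm (ep t) : ℝ) - lo (ep t)) * mu (ep t) + radb (ep t) (pos t)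
          = min ((pos t : ℝ) + 1) ((mm (ep t) : ℝ) - lo (ep t)) * mu (ep t) := by
        unfold radb
        split_ifs with ha
        · have : (pos t : ℝ) + 1 + lo (ep t) ≤ mm (ep t) := by exact_mod_cast (by omega)
          rw [min_eq_left (by linarith), min_eq_left (by linarith)]
          ring
        · have : (mm (ep t) : ℝ) ≤ pos t + lo (ep t) := by exact_mod_cast (by omega)
          rw [min_eq_right (by linarith), min_eq_right (by linarith)]
          simp
      by_cases h : pos (t + 1) = 0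
      · have h1 := succ_new h
        have hg' : 5 ≤ ep (t + 1) := hg0.trans (le_ep (by omega))
        have h4 : (lo (ep (t + 1)) : ℝ) ≤ mm (ep (t + 1)) := by
          have := lo_mul hg'
          have h5 : lo (ep (t + 1)) ≤ lo (ep (t + 1)) * 2 ^ ep (t + 1) :=
            Nat.le_mul_of_pos_right _ (by positivity)
          exact_mod_cast (by omega : lo (ep (t + 1)) ≤ mm (ep (t + 1)))
        have h2 : (pos t : ℝ) + 1 = mm (ep t) := by exact_mod_cast h1.2
        have h3 : (0 : ℝ) < lo (ep t) := by exact_mod_cast hl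
        rw [h2, min_eq_right (show (mm (ep t) : ℝ) - lo (ep t) ≤ mm (ep t) by linarith)] at hstep
        rw [h, Nat.cast_zero, min_eq_left (by linarith)]
        have h5 := mm_gam hg
        rw [← h2] at h5
        rw [← h2] at hstep ih
        linarith
      · have h1 := succ_block h
        rw [← h1.1, ← h1.2.2]
        push_cast
        linarith
  rcases le_total t N0 with ht | ht
  · linarith [hz t ht]
  · have h1 := key t ht
    have hg : 5 ≤ ep t := hg0.trans (le_ep ht)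
    have h5 := mm_gam hg
    have hp : (pos t : ℝ) ≤ mm (ep t) := by exact_mod_cast (pos_lt t).le
    have hmu : (0 : ℝ) ≤ mu (ep t) := Nat.cast_nonneg _
    have h2 : (0 : ℝ) < 1 / 2 ^ ep t := by positivity
    have h3 : (1 : ℝ) / 2 ^ ep t ≤ 1 := by
      rw [div_le_one (by positivity)]; exact one_le_pow₀ one_le_two
    have hgam : 0 ≤ gam (ep t) := mul_nonneg (by linarith) hmu
    have hgam' : gam (ep t) ≤ mu (ep t) := by unfold gam; nlinarith
    have hp0 : (0 : ℝ) ≤ pos t := Nat.cast_nonneg _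
    rcases le_total (pos t : ℝ) ((mm (ep t) : ℝ) - lo (ep t)) with h | h
    · rw [min_eq_left h] at h1
      nlinarith
    · rw [min_eq_right h] at h1
      nlinarith

theorem lam_ep_le (t : ℕ) : lam (ep t) ≤ 4 * t + 2 := by
  have h1 : ep t ^ 2 ≤ t := (Nat.sqrt_le' _).trans (Nat.log_le_self 2 t)
  unfold lam
  nlinarith [Nat.le_self_pow two_ne_zero (ep t)]

theorem tendsto_ep : Tendsto ep atTop atTop := by
  rw [tendsto_atTop_atTop]
  exact fun g => ⟨2 ^ (g ^ 2), fun n hn => le_ep hn⟩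

theorem gam_ge {g : ℕ} (hg : 5 ≤ g) : (g : ℝ) ^ 2 - 5 * g - 1 ≤ gam g := by
  have h5 : 5 * g ≤ g ^ 2 := by nlinarith
  have h1 : (mu g : ℝ) = (g : ℝ) ^ 2 - 4 * g - 1 := by
    have : mu g + 4 * g + 1 = g ^ 2 := by unfold mu; omega
    have : (mu g : ℝ) + 4 * g + 1 = (g : ℝ) ^ 2 := by exact_mod_cast this
    linarith
  have h2 : (g : ℝ) ≤ 2 ^ g := by exact_mod_cast (Nat.lt_two_pow_self).le
  have h3 : (5 : ℝ) ≤ g := by exact_mod_cast hg
  have h4 : 1 / 2 ^ g * (mu g : ℝ) ≤ g := by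
    rw [one_div, inv_mul_le_iff₀ (by positivity), h1]
    nlinarith
  unfold gam
  linarith

theorem dim_estimate {y : ℝ} (hy : 0 < y) (hy1 : y ≤ 1) {g0 : ℕ} (hg0 : 5 ≤ g0) {s : ℝ}
    (hs : 0 < s) (hs1 : s < 1) : ∃ C : ℝ, 0 ≤ C ∧ ∀ t,
      (∏ i ∈ range t, ((2 ^ bits (2 ^ (g0 ^ 2)) i : ℕ) : ℝ))⁻¹ ≤ C * sig y (t + 1) ^ s := by
  set N0 := 2 ^ (g0 ^ 2) with hN0
  have hl2 : 0 < Real.log 2 := Real.log_pos one_lt_two
  set c : ℝ := -Real.log y / Real.log 2 with hc
  have hc0 : 0 ≤ c := div_nonneg (by linarith [Real.log_nonpos hy.le hy1]) hl2.le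
  have hev : ∀ᶠ i in atTop,
      s * lam (ep i) + 2 * c + 4 - (if N0 ≤ i then gam (ep i) else 0) ≤ 0 := by
    have t1 : Tendsto (fun i => (ep i : ℝ)) atTop atTop :=
      tendsto_natCast_atTop_atTop.comp tendsto_ep
    filter_upwards [eventually_ge_atTop N0, t1.eventually_ge_atTop ((15 + 2 * c) / (1 - s))]
      with i hi hi'
    have hg : 5 ≤ ep i := hg0.trans (le_ep hi)
    rw [if_pos hi]
    have h1 := gam_ge hg
    have h3 : (5 : ℝ) ≤ ep i := by exact_mod_cast hg
    have a3 : (lam (ep i) : ℝ) = (ep i + 1) ^ 2 + ep i + 1 := by unfold lam; push_cast; ring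
    rw [div_le_iff₀ (by linarith)] at hi'
    have h4 := mul_le_mul_of_nonneg_left hi' (show (0 : ℝ) ≤ ep i by linarith)
    have h5 : c * 1 ≤ c * ep i := mul_le_mul_of_nonneg_left (by linarith) hc0
    have h6 : s * (3 * ep i + 2) ≤ 1 * (3 * ep i + 2) :=
      mul_le_mul_of_nonneg_right hs1.le (by linarith)
    rw [a3]
    nlinarith
  obtain ⟨C, hC⟩ := bdd_partial hev
  refine ⟨Real.exp ((C + 2 * c + 2) * Real.log 2), (Real.exp_pos _).le, fun t => ?_⟩
  have h1 := hC t
  have h2 := bits_sum hg0 t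
  rw [sum_sub_distrib, sum_add_distrib, sum_add_distrib, ← mul_sum] at h1
  simp only [sum_const, card_range, nsmul_eq_mul] at h1
  have h3 : (tau (t + 1) : ℝ) = ∑ i ∈ range t, (lam (ep i) : ℝ) + lam (ep t) := by
    rw [tau_succ, tau]; push_cast; ring
  have h4 : (lam (ep t) : ℝ) ≤ 4 * t + 2 := by exact_mod_cast lam_ep_le t
  have h5 : ((st (t + 1) + mm (ep (t + 1)) : ℕ) : ℝ) ≤ 2 * (t + 1) := by
    have a1 := mm_le_st (Nat.succ_ne_zero t)
    have a2 := st_le (t + 1)
    have a3 : mm (ep (t + 1)) ≤ mm (ep (t + 1)) * 2 ^ ep (t + 1) :=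
      Nat.le_mul_of_pos_right _ (by positivity)
    exact_mod_cast (by simp only [Nat.succ_eq_add_one] at a1; omega)
  have e1 : (∏ i ∈ range t, ((2 ^ bits N0 i : ℕ) : ℝ))⁻¹
      = Real.exp (-(∑ i ∈ range t, (bits N0 i : ℝ)) * Real.log 2) := by
    rw [neg_mul, Real.exp_neg, sum_mul, Real.exp_sum]
    congr 1
    refine prod_congr rfl fun i _ => ?_
    rw [Real.exp_nat_mul, Real.exp_log two_pos]
    simp
  have e2 : sig y (t + 1) ^ s = Real.exp ((-(s * tau (t + 1))
      - s * c * ((st (t + 1) + mm (ep (t + 1)) : ℕ) : ℝ)) * Real.log 2) := by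
    rw [Real.rpow_def_of_pos (sig_pos hy _), sig, Real.log_mul (by positivity) (by positivity),
      Real.log_pow, Real.log_pow, one_div, Real.log_inv, hc]
    congr 1
    field_simp
    ring
  rw [e1, e2, ← Real.exp_add, Real.exp_le_exp, ← add_mul]
  apply mul_le_mul_of_nonneg_right _ hl2.le
  have h6 : s * c * ((st (t + 1) + mm (ep (t + 1)) : ℕ) : ℝ) ≤ 1 * c * (2 * (t + 1)) := by
    gcongr
  have h7 : s * (lam (ep t) : ℝ) ≤ 1 * (4 * t + 2) := by
    gcongr
  rw [h3]
  nlinarith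

end Pool.Agent.MP_2cd596_an.H55
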