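import Mathlib
import Pool.Agent.MP_2cd596_an.H55.Lower2
import Pool.Agent.MP_2cd596_an.H55.Cantor

set_option autoImplicit false

namespace Pool.Agent.MP_2cd596_an.H55

open Finset Filter Topology Pointwise
open scoped NNReal ENNReal

/-- All sums of the series with the powers replaced by products of points of `K`. -/
def msum (a : ℕ → ℝ) (K : Set ℝ) : Set ℝ :=
  {z | ∃ p : ℕ → ℝ, (∀ i, p i ∈ K ^ i) ∧ ∑' i, a i * p i = z}

def used (sel : ℕ → Finset ℕ → ℕ → ℕ) (e : ℕ → ℕ) : ℕ → Finset ℕ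
  | 0 => ∅
  | t + 1 => if pos (t + 1) = 0 then ∅ else insert (sel (ep t) (used sel e t) (e t)) (used sel e t)

def pick (sel : ℕ → Finset ℕ → ℕ → ℕ) (e : ℕ → ℕ) (t : ℕ) : ℕ := sel (ep t) (used sel e t) (e t)

theorem used_congr (sel : ℕ → Finset ℕ → ℕ → ℕ) {e e' : ℕ → ℕ} (t : ℕ)
    (h : ∀ i < t, e i = e' i) : used sel e t = used sel e' t := by
  induction t with
  | zero => rfl
  | succ t ih =>
    simp only [used]
    rw [ih (fun i hi => h i (Nat.lt_succ_of_lt hi)), h t (Nat.lt_succ_self t)]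

section

variable {sel : ℕ → Finset ℕ → ℕ → ℕ} {g0 : ℕ}

theorem used_inv
    (hsel : ∀ g, g0 ≤ g → ∀ S : Finset ℕ, #S < mm g → ∀ k < 2 ^ radb g #S,
      sel g S k < mm g ∧ sel g S k ∉ S)
    {e : ℕ → ℕ} (he : ∀ t, e t < 2 ^ bits (2 ^ (g0 ^ 2)) t) (t : ℕ) (ht : 2 ^ (g0 ^ 2) ≤ t) :
    used sel e t = (Ico (st t) t).image (pick sel e) ∧ #(used sel e t) = pos t := by
  induction t with
  | zero => exact absurd ht (by simp)
  | succ t ih =>
    by_cases h : pos (t + 1) = 0
    · have h1 := succ_new h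
      simp [used, h, h1.1]
    · have h1 := succ_block h
      have h2 := st_ge ht
      have h3 := st_le t
      have ht' : 2 ^ (g0 ^ 2) ≤ t := by omega
      obtain ⟨i1, i2⟩ := ih ht'
      have h4 := he t
      rw [bits, if_pos ht', ← i2] at h4
      have h5 := hsel (ep t) (le_ep ht') _ (by rw [i2]; exact pos_lt t) _ h4
      simp only [used, if_neg h]
      refine ⟨?_, ?_⟩
      · rw [← h1.2.1, Nat.Ico_succ_right_eq_insert_Ico h3, image_insert, ← i1]
        rfl
      · rw [card_insert_of_notMem h5.2, i2, h1.2.2]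

theorem pick_spec
    (hsel : ∀ g, g0 ≤ g → ∀ S : Finset ℕ, #S < mm g → ∀ k < 2 ^ radb g #S,
      sel g S k < mm g ∧ sel g S k ∉ S)
    {e : ℕ → ℕ} (he : ∀ t, e t < 2 ^ bits (2 ^ (g0 ^ 2)) t) (t : ℕ) (ht : 2 ^ (g0 ^ 2) ≤ t) :
    pick sel e t < mm (ep t) ∧ pick sel e t ∉ used sel e t := by
  have i2 := (used_inv hsel he t ht).2
  have h4 := he t
  rw [bits, if_pos ht, ← i2] at h4
  exact hsel (ep t) (le_ep ht) _ (by rw [i2]; exact pos_lt t) _ h4

theorem pick_inj
    (hsel : ∀ g, g0 ≤ g → ∀ S : Finset ℕ, #S < mm g → ∀ k < 2 ^ radb g #S,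
      sel g S k < mm g ∧ sel g S k ∉ S)
    {e : ℕ → ℕ} (he : ∀ t, e t < 2 ^ bits (2 ^ (g0 ^ 2)) t) {t t' : ℕ} (ht : 2 ^ (g0 ^ 2) ≤ t)
    (ht' : 2 ^ (g0 ^ 2) ≤ t') (hst : st t = st t') (hp : pick sel e t = pick sel e t') :
    t = t' := by
  wlog hlt : t < t' generalizing t t'
  · rcases eq_or_lt_of_le (not_lt.mp hlt) with h | h
    · exact h.symm
    · exact (this ht' ht hst.symm hp.symm h).symm
  exfalso
  apply (pick_spec hsel he t' ht').2
  rw [(used_inv hsel he t' ht').1, ← hp]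
  exact mem_image_of_mem _ (mem_Ico.mpr ⟨hst ▸ st_le t, hlt⟩)

def perm (sel : ℕ → Finset ℕ → ℕ → ℕ) (N0 : ℕ) (e : ℕ → ℕ) (t : ℕ) : ℕ :=
  if N0 ≤ t then st t + pick sel e t else t

theorem perm_bij
    (hsel : ∀ g, g0 ≤ g → ∀ S : Finset ℕ, #S < mm g → ∀ k < 2 ^ radb g #S,
      sel g S k < mm g ∧ sel g S k ∉ S)
    {e : ℕ → ℕ} (he : ∀ t, e t < 2 ^ bits (2 ^ (g0 ^ 2)) t) :
    Function.Bijective (perm sel (2 ^ (g0 ^ 2)) e) := by
  constructor
  · intro t t' h
    unfold perm at h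
    split_ifs at h with h1 h2 h2
    · have a1 := (block (pick_spec hsel he t h1).1).2.1
      have a2 := (block (pick_spec hsel he t' h2).1).2.1
      have hst : st t = st t' := by rw [← a1, ← a2, h]
      exact pick_inj hsel he h1 h2 hst (by omega)
    · have := st_ge h1; omega
    · have := st_ge h2; omega
    · exact h
  · intro n
    by_cases hn : 2 ^ (g0 ^ 2) ≤ n
    swap
    · exact ⟨n, by rw [perm, if_neg hn]⟩
    have hst := st_ge hn
    have hmaps : ∀ j ∈ range (mm (ep n)), pick sel e (st n + j) ∈ range (mm (ep n)) := by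
      intro j hj
      have := (pick_spec hsel he (st n + j) (by omega)).1
      rw [(block (mem_range.mp hj)).1] at this
      exact mem_range.mpr this
    have hinj : Set.InjOn (fun j => pick sel e (st n + j)) (range (mm (ep n)) : Finset ℕ) := by
      intro j hj j' hj' h
      have := pick_inj hsel he (t := st n + j) (t' := st n + j') (by omega) (by omega)
        (by rw [(block (mem_range.mp hj)).2.1, (block (mem_range.mp hj')).2.1]) h
      omega
    have himg : (range (mm (ep n))).image (fun j => pick sel e (st n + j)) = range (mm (ep n)) := by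
      apply eq_of_subset_of_card_le
      · exact image_subset_iff.mpr hmaps
      · rw [card_image_of_injOn hinj]
    have hmem : pos n ∈ (range (mm (ep n))).image (fun j => pick sel e (st n + j)) := by
      rw [himg]; exact mem_range.mpr (pos_lt n)
    obtain ⟨j, hj, hj'⟩ := mem_image.mp hmem
    refine ⟨st n + j, ?_⟩
    rw [perm, if_pos (by omega), (block (mem_range.mp hj)).2.1, hj', st_add_pos]

end

theorem one_le_dimH {K : Set ℝ} {x y : ℝ} (hxK : x ∈ K) (hyK : y ∈ K) (hx : 0 < x) (hxy : x < y)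
    (hy1 : y ≤ 1) : 1 ≤ dimH (msum aa K) := by
  have hy : 0 < y := hx.trans hxy
  set ρ := x / y with hρd
  have hρ : 0 < ρ := div_pos hx hy
  have hρ1 : ρ < 1 := (div_lt_one hy).mpr hxy
  have hL : 0 < -Real.log ρ := by linarith [Real.log_neg hρ hρ1]
  obtain ⟨E, hE⟩ := exists_nat_ge (4 / -Real.log ρ)
  obtain ⟨g0, hg0⟩ := eventually_good hy hy1 hρ hρ1 E
  set N0 := 2 ^ (g0 ^ 2) with hN0
  have hN0pos : 0 < N0 := by positivity
  have hs : ∀ (g : ℕ) (S : Finset ℕ), ∃ ι : ℕ → ℕ, g0 ≤ g → #S < mm g →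
      (∀ k < 2 ^ radb g #S, ι k < mm g ∧ ι k ∉ S) ∧
      ∀ k < 2 ^ radb g #S, ∀ k' < 2 ^ radb g #S, k ≠ k' →
        NR (PP g) (-Real.log y) (-Real.log ρ) (ι k) (ι k') := by
    intro g S
    by_cases hg : g0 ≤ g
    · obtain ⟨ι, hι⟩ := exists_sel (hg0 g hg).1 (hg0 g hg).2.1 (-Real.log y) hL hE S
      exact ⟨ι, fun _ => hι⟩
    · exact ⟨fun _ => 0, fun h => absurd h hg⟩
  choose sel hsel using hs
  have hsel1 : ∀ g, g0 ≤ g → ∀ S : Finset ℕ, #S < mm g → ∀ k < 2 ^ radb g #S,
      sel g S k < mm g ∧ sel g S k ∉ S := fun g hg S hS => (hsel g S hg hS).1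
  have hd : ∀ t j : ℕ, ∃ d, N0 ≤ t → j < mm (ep t) → d ≤ st t + j ∧
      ρ * sig y t ≤ aa (st t + j) * y ^ (st t + j) * ρ ^ d ∧
      aa (st t + j) * y ^ (st t + j) * ρ ^ d ≤ sig y t := by
    intro t j
    by_cases h : N0 ≤ t ∧ j < mm (ep t)
    · obtain ⟨d, hd⟩ := exists_digit hy hy1 hρ hρ1.le (t := t) (by omega)
        (hg0 _ (le_ep h.1)).2.2.1 h.2
      exact ⟨d, fun _ _ => hd⟩
    · exact ⟨0, fun h1 h2 => absurd ⟨h1, h2⟩ h⟩
  choose dg hdg using hd
  set D : (ℕ → ℕ) → ℕ → ℕ := fun e t => if N0 ≤ t then dg t (pick sel e t) else 0 with hD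
  set V : (ℕ → ℕ) → ℕ → ℝ := fun e t =>
    aa (perm sel N0 e t) * y ^ (perm sel N0 e t) * ρ ^ (D e t) with hV
  have hV0 : ∀ e t, 0 ≤ V e t := fun e t => by
    have := aa_pos (perm sel N0 e t)
    simp only [hV]; positivity
  have hVb : ∀ e : ℕ → ℕ, (∀ t, e t < 2 ^ bits N0 t) → ∀ t, N0 ≤ t →
      ρ * sig y t ≤ V e t ∧ V e t ≤ sig y t := by
    intro e he t ht
    simp only [hV, hD, perm, if_pos ht]
    exact (hdg t _ ht (pick_spec hsel1 he t ht).1).2
  have hVs : ∀ e : ℕ → ℕ, (∀ t, e t < 2 ^ bits N0 t) → ∀ t, N0 ≤ t →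
      Summable (fun k => V e (k + t)) ∧ ∑' k, V e (k + t) ≤ 2 * sig y t := by
    intro e he t ht
    have h1 : ∀ k, V e (k + t) ≤ sig y t * (1 / 2) ^ k := fun k =>
      (hVb e he _ (by omega)).2.trans (sig_add hy hy1 t k)
    have h2 := Summable.of_nonneg_of_le (fun k => hV0 e (k + t)) h1
      (summable_geometric_two.mul_left _)
    refine ⟨h2, (Summable.tsum_le_tsum h1 h2 (summable_geometric_two.mul_left _)).trans
      (le_of_eq ?_)⟩
    rw [tsum_mul_left, tsum_geometric_two, mul_comm]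
  have hmem : ∀ e : ℕ → ℕ, (∀ t, e t < 2 ^ bits N0 t) → ∑' t, V e t ∈ msum aa K := by
    intro e he
    set σ := Equiv.ofBijective _ (perm_bij hsel1 he) with hσ
    have hDle : ∀ t, D e t ≤ σ t := by
      intro t
      simp only [hD, hσ, Equiv.ofBijective_apply, perm]
      split_ifs with ht
      · exact (hdg t _ ht (pick_spec hsel1 he t ht).1).1
      · exact Nat.zero_le _
    refine ⟨fun n => y ^ (n - D e (σ.symm n)) * x ^ (D e (σ.symm n)), fun n => ?_, ?_⟩
    · have h1 := hDle (σ.symm n)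
      rw [Equiv.apply_symm_apply] at h1
      have h2 : K ^ n = K ^ (n - D e (σ.symm n)) * K ^ (D e (σ.symm n)) := by
        rw [← pow_add]; congr 1; omega
      rw [h2]
      exact Set.mul_mem_mul (Set.pow_mem_pow hyK) (Set.pow_mem_pow hxK)
    · rw [← σ.tsum_eq]
      congr 1
      funext t
      have h1 := hDle t
      simp only [Equiv.symm_apply_apply]
      have h2 : y ^ (σ t) = y ^ (σ t - D e t) * y ^ (D e t) := by
        rw [← pow_add]; congr 1; omega
      have h3 : V e t = aa (σ t) * y ^ (σ t) * ρ ^ (D e t) := rfl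
      rw [h3, h2, hρd, div_pow]
      field_simp
  have hsep : ∀ e e' : ℕ → ℕ, (∀ t, e t < 2 ^ bits N0 t) → (∀ t, e' t < 2 ^ bits N0 t) → ∀ t,
      (∀ i < t, e i = e' i) → e t ≠ e' t → sig y (t + 1) ≤ |∑' t, V e t - ∑' t, V e' t| := by
    intro e e' he he' t hagree hne
    have ht : N0 ≤ t := by
      by_contra h
      have h1 := he t
      have h2 := he' t
      rw [bits, if_neg h] at h1 h2
      omega
    have hsum : ∀ f : ℕ → ℕ, (∀ t, f t < 2 ^ bits N0 t) →
        ∑' k, V f k = ∑ i ∈ range t, V f i + V f t + ∑' k, V f (k + (t + 1)) := by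
      intro f hf
      rw [← sum_range_succ]
      exact (((summable_nat_add_iff N0).mp (hVs f hf N0 le_rfl).1).sum_add_tsum_nat_add _).symm
    have hpre : ∑ i ∈ range t, V e i = ∑ i ∈ range t, V e' i := by
      refine sum_congr rfl fun i hi => ?_
      have hi' := mem_range.mp hi
      have : pick sel e i = pick sel e' i := by
        unfold pick
        rw [used_congr sel i (fun k hk => hagree k (hk.trans hi')), hagree i hi']
      simp only [hV, hD, perm, this]
    have hu : used sel e t = used sel e' t := used_congr sel t hagree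
    have hcard := (used_inv hsel1 he t ht).2
    have hN : NR (PP (ep t)) (-Real.log y) (-Real.log ρ) (pick sel e t) (pick sel e' t) := by
      have h1 := he t
      have h2 := he' t
      rw [bits, if_pos ht, ← hcard] at h1 h2
      unfold pick
      rw [← hu]
      exact (hsel (ep t) _ (le_ep ht) (by rw [hcard]; exact pos_lt t)).2 _ h1 _ h2 hne
    have b1 := (hVb e he t ht).1
    have b2 := (hVb e' he' t ht).1
    have hv : ρ * sig y t / (4 * mm (ep t)) ≤ |V e t - V e' t| := by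
      simp only [hV, hD, perm, if_pos ht] at b1 b2 ⊢
      exact val_sep hy hρ (pick_spec hsel1 he t ht).1 (pick_spec hsel1 he' t ht).1 hN
        (mul_pos hρ (sig_pos hy t)).le b1 b2
    have hg := sig_gap hy hy1 (t := t) (hg0 _ (le_ep ht)).2.2.2
    have t1 := (hVs e he (t + 1) (by omega)).2
    have t2 := (hVs e' he' (t + 1) (by omega)).2
    have t3 : 0 ≤ ∑' k, V e (k + (t + 1)) := tsum_nonneg fun k => hV0 _ _
    have t4 : 0 ≤ ∑' k, V e' (k + (t + 1)) := tsum_nonneg fun k => hV0 _ _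
    rw [hsum e he, hsum e' he', hpre]
    have t5 : 3 * sig y (t + 1) ≤ |V e t - V e' t| := hg.trans hv
    rcases le_abs.mp t5 with h | h
    · exact le_abs.mpr (Or.inl (by linarith))
    · exact le_abs.mpr (Or.inr (by linarith))
  have hr0 : Tendsto (fun t => sig y (t + 1)) atTop (𝓝 0) := by
    have h1 := (tendsto_pow_atTop_nhds_zero_of_lt_one (show (0 : ℝ) ≤ 1 / 2 by norm_num)
      (by norm_num)).const_mul (sig y 1)
    rw [mul_zero] at h1
    exact squeeze_zero (fun t => (sig_pos hy _).le) (fun t => sig_add hy hy1 1 t) h1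
  apply ENNReal.le_of_forall_pos_nnreal_lt
  intro s hs0 hs1
  have hs1' : (s : ℝ) < 1 := by exact_mod_cast hs1
  obtain ⟨C, hC0, hC⟩ := dim_estimate hy hy1 (hg0 g0 le_rfl).1 (s := s) hs0 hs1'
  exact le_dimH_of_coding (M := fun t => 2 ^ bits N0 t) (fun t => by positivity)
    (fun t => sig_pos hy (t + 1)) hr0 (fun e => ∑' t, V e t) hmem hsep hs0 hC0 hC

end Pool.Agent.MP_2cd596_an.H55
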