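import Mathlib
import Pool.Agent.MP_2cd596_an.H55.Lower3

set_option autoImplicit false

namespace Pool.Agent.MP_2cd596_an.H55

open Finset Filter Topology Pointwise MeasureTheory TopologicalSpace
open scoped NNReal ENNReal

theorem pow_sub_Icc {K : Set ℝ} (hK : K ⊆ Set.Icc 0 1) (i : ℕ) : K ^ i ⊆ Set.Icc 0 1 := by
  induction i with
  | zero => intro p hp; rw [pow_zero, Set.mem_one] at hp; simp [hp]
  | succ i ih =>
    rw [pow_succ]
    rintro _ ⟨p, hp, z, hz, rfl⟩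
    have h1 := ih hp
    have h2 := hK hz
    exact ⟨mul_nonneg h1.1 h2.1, mul_le_one₀ h1.2 h2.1 h2.2⟩

theorem pow_compact {K : Set ℝ} (hK : IsCompact K) (i : ℕ) : IsCompact (K ^ i) := by
  induction i with
  | zero => rw [pow_zero]; exact isCompact_singleton
  | succ i ih => rw [pow_succ]; exact ih.mul hK

theorem norm_term_le {a : ℕ → ℝ} {K : Set ℝ} (hK : K ⊆ Set.Icc 0 1) {i : ℕ} {p : ℝ}
    (hp : p ∈ K ^ i) : ‖a i * p‖ ≤ |a i| := by
  have := pow_sub_Icc hK i hp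
  rw [Real.norm_eq_abs, abs_mul, abs_of_nonneg this.1]
  exact mul_le_of_le_one_right (abs_nonneg _) this.2

theorem msum_compact {a : ℕ → ℝ} (ha : Summable fun i => |a i|) {K : Set ℝ} (hK : IsCompact K)
    (hK1 : K ⊆ Set.Icc 0 1) : IsCompact (msum a K) := by
  have h1 : IsCompact {p : ℕ → ℝ | ∀ i, p i ∈ K ^ i} := isCompact_pi_infinite (pow_compact hK)
  have h2 : ContinuousOn (fun p : ℕ → ℝ => ∑' i, a i * p i) {p : ℕ → ℝ | ∀ i, p i ∈ K ^ i} :=
    continuousOn_tsum (fun i => by fun_prop) ha (fun i p hp => norm_term_le hK1 (hp i))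
  exact h1.image_of_continuousOn h2

theorem msum_split {a : ℕ → ℝ} (ha : Summable fun i => |a i|) {K : Set ℝ}
    (hK1 : K ⊆ Set.Icc 0 1) {p : ℕ → ℝ} (hp : ∀ i, p i ∈ K ^ i) (N : ℕ) :
    |∑' i, a i * p i - ∑ i ∈ range N, a i * p i| ≤ ∑' k, |a (k + N)| := by
  have h1 : Summable (fun i => a i * p i) :=
    Summable.of_norm_bounded ha (fun i => norm_term_le hK1 (hp i))
  rw [← h1.sum_add_tsum_nat_add N, add_sub_cancel_left, ← Real.norm_eq_abs]
  exact tsum_of_norm_bounded ((summable_nat_add_iff N).mpr ha).hasSum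
    (fun k => norm_term_le hK1 (hp _))

theorem msum_limit {a : ℕ → ℝ} (ha : Summable fun i => |a i|) {K : Set ℝ}
    (hK1 : K ⊆ Set.Icc 0 1) (hne : K.Nonempty) :
    Tendsto (fun n => Metric.hausdorffEDist (∑ i ∈ range (n + 1), a i • K ^ i) (msum a K))
      atTop (𝓝 0) := by
  classical
  obtain ⟨z0, hz0⟩ := hne
  have h0 : Tendsto (fun n => ENNReal.ofReal (∑' k, |a (k + (n + 1))|)) atTop (𝓝 0) := by
    have := ENNReal.tendsto_ofReal
      ((tendsto_sum_nat_add (fun i => |a i|)).comp (tendsto_add_atTop_nat 1))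
    simpa using this
  refine tendsto_of_tendsto_of_tendsto_of_le_of_le tendsto_const_nhds h0 (fun _ => zero_le)
    (fun n => ?_)
  apply Metric.hausdorffEDist_le_of_mem_edist
  · intro w hw
    rw [Set.mem_finsetSum] at hw
    obtain ⟨g, hg, rfl⟩ := hw
    have : ∀ i, ∃ p ∈ K ^ i, i ∈ range (n + 1) → g i = a i * p := by
      intro i
      by_cases hi : i ∈ range (n + 1)
      · obtain ⟨p, hp, hp'⟩ := hg hi
        exact ⟨p, hp, fun _ => hp'.symm⟩
      · exact ⟨z0 ^ i, Set.pow_mem_pow hz0, fun h => absurd h hi⟩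
    choose p hp hp' using this
    refine ⟨_, ⟨p, hp, rfl⟩, ?_⟩
    rw [edist_dist, Real.dist_eq, sum_congr rfl hp', abs_sub_comm]
    exact ENNReal.ofReal_le_ofReal (msum_split ha hK1 hp _)
  · rintro _ ⟨p, hp, rfl⟩
    refine ⟨∑ i ∈ range (n + 1), a i * p i, ?_, ?_⟩
    · rw [Set.mem_finsetSum]
      exact ⟨fun i => a i * p i, fun {i} _ => ⟨p i, hp i, rfl⟩, rfl⟩
    · rw [edist_dist, Real.dist_eq]
      exact ENNReal.ofReal_le_ofReal (msum_split ha hK1 hp _)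

theorem pow_approx {K : Set ℝ} (hK : K ⊆ Set.Icc 0 1) {θ δ : ℝ} (h0 : 0 ≤ θ) (h1 : θ ≤ 1)
    {J : ℕ} (hJ : ∀ z ∈ K, ∃ j ≤ J, |z - θ ^ j| ≤ δ) (i : ℕ) :
    ∀ p ∈ K ^ i, ∃ e ≤ J * i, |p - θ ^ e| ≤ i * δ := by
  induction i with
  | zero => intro p hp; rw [pow_zero, Set.mem_one] at hp; exact ⟨0, by simp, by simp [hp]⟩
  | succ i ih =>
    rw [pow_succ]
    rintro _ ⟨p, hp, z, hz, rfl⟩
    obtain ⟨e, he, he'⟩ := ih p hp
    obtain ⟨j, hj, hj'⟩ := hJ z hz
    refine ⟨e + j, by nlinarith, ?_⟩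
    have h2 := hK hz
    have h3 : p * z - θ ^ (e + j) = (p - θ ^ e) * z + θ ^ e * (z - θ ^ j) := by ring
    have h4 : |(p - θ ^ e) * z| ≤ i * δ := by
      rw [abs_mul, abs_of_nonneg h2.1]
      exact (mul_le_of_le_one_right (abs_nonneg _) h2.2).trans he'
    have h5 : |θ ^ e * (z - θ ^ j)| ≤ δ := by
      rw [abs_mul, abs_of_nonneg (pow_nonneg h0 e)]
      exact (mul_le_of_le_one_left (abs_nonneg _) (pow_le_one₀ h0 h1)).trans hj'
    simp only
    rw [h3]
    refine (abs_add_le _ _).trans ?_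
    push_cast
    linarith

theorem aa_abs_summable : Summable fun i => |aa i| := aa_summable.abs

theorem volume_le {K : Set ℝ} (hK : K ⊆ Set.Icc 0 1) {θ δ : ℝ} (h0 : 0 ≤ θ) (h1 : θ ≤ 1)
    {J : ℕ} (hJ : ∀ z ∈ K, ∃ j ≤ J, |z - θ ^ j| ≤ δ) (N : ℕ) :
    volume (msum aa K) ≤ ENNReal.ofReal ((∏ n ∈ range N, ((J * n + 1 : ℕ) : ℝ)) *
      (2 * ((∑ n ∈ range N, aa n * n) * δ + ∑' k, aa (k + N)))) := by
  classical
  set η := (∑ n ∈ range N, aa n * n) * δ + ∑' k, aa (k + N) with hη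
  have hcov : msum aa K ⊆ ⋃ e ∈ Fintype.piFinset (fun n : Fin N => range (J * n + 1)),
      Metric.closedBall (∑ n : Fin N, aa n * θ ^ (e n)) η := by
    rintro _ ⟨p, hp, rfl⟩
    choose e he he' using fun i => pow_approx hK h0 h1 hJ i (p i) (hp i)
    simp only [Set.mem_iUnion]
    refine ⟨fun n => e n, ?_, ?_⟩
    · rw [Fintype.mem_piFinset]
      exact fun n => mem_range.mpr (Nat.lt_succ_of_le (he n))
    · rw [Metric.mem_closedBall, Real.dist_eq, Fin.sum_univ_eq_sum_range (fun n => aa n * θ ^ e n)]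
      have a1 := msum_split aa_abs_summable hK hp N
      simp only [abs_of_pos (aa_pos _)] at a1
      have a2 : |∑ i ∈ range N, aa i * p i - ∑ i ∈ range N, aa i * θ ^ e i|
          ≤ (∑ n ∈ range N, aa n * n) * δ := by
        rw [← sum_sub_distrib, sum_mul]
        refine (abs_sum_le_sum_abs _ _).trans (sum_le_sum fun i _ => ?_)
        rw [← mul_sub, abs_mul, abs_of_pos (aa_pos i), mul_assoc]
        exact mul_le_mul_of_nonneg_left (he' i) (aa_pos i).le
      refine (abs_sub_le _ (∑ i ∈ range N, aa i * p i) _).trans ?_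
      linarith
  refine (measure_mono hcov).trans ((measure_biUnion_finset_le _ _).trans (le_of_eq ?_))
  simp only [Real.volume_closedBall, sum_const, Fintype.card_piFinset, card_range, nsmul_eq_mul]
  rw [ENNReal.ofReal_mul (prod_nonneg fun _ _ => Nat.cast_nonneg _), ← Nat.cast_prod,
    ENNReal.ofReal_natCast, Fin.prod_univ_eq_prod_range (fun n => J * n + 1)]

theorem exists_small (J : ℕ) {ε : ℝ} (hε : 0 < ε) : ∃ (N : ℕ) (δ : ℝ), 0 < δ ∧
    (∏ n ∈ range N, ((J * n + 1 : ℕ) : ℝ)) *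
      (2 * ((∑ n ∈ range N, aa n * n) * δ + ∑' k, aa (k + N))) ≤ ε := by
  set u : ℕ → ℝ := fun N => (∏ n ∈ range N, ((J * n + 1 : ℕ) : ℝ)) * ((1 / 2) ^ tau N * 4 ^ N)
    with hu
  have hu0 : ∀ N, 0 ≤ u N := fun N => by simp only [hu]; positivity
  have hs : Summable u := by
    apply summable_of_ratio_norm_eventually_le (r := 1 / 2) (by norm_num)
    filter_upwards [tendsto_ep.eventually_ge_atTop (4 * (J + 1))] with n hn
    rw [Real.norm_eq_abs, Real.norm_eq_abs, abs_of_nonneg (hu0 _), abs_of_nonneg (hu0 _)]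
    have h1 : (J * n + 1) * 8 ≤ 2 ^ lam (ep n) := by
      have a1 := ep_upper n
      have a2 : 4 * (J + 1) ≤ 2 ^ ep n := hn.trans (Nat.lt_two_pow_self).le
      unfold lam
      rw [pow_succ, pow_add]
      calc (J * n + 1) * 8 ≤ (n + 1) * (4 * (J + 1)) * 2 := by nlinarith
        _ ≤ _ := Nat.mul_le_mul_right _ (Nat.mul_le_mul a1 a2)
    have h2 : ((J * n + 1 : ℕ) : ℝ) * 8 ≤ 2 ^ lam (ep n) := by exact_mod_cast h1
    have h3 : (1 / 2 : ℝ) ^ lam (ep n) * 2 ^ lam (ep n) = 1 := by rw [← mul_pow]; norm_num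
    have h4 : (0 : ℝ) < (1 / 2) ^ lam (ep n) := by positivity
    have h5 : ((J * n + 1 : ℕ) : ℝ) * ((1 / 2) ^ lam (ep n) * 4) ≤ 1 / 2 := by
      nlinarith [mul_le_mul_of_nonneg_left h2 h4.le]
    have h6 : u (n + 1) = ((J * n + 1 : ℕ) : ℝ) * ((1 / 2) ^ lam (ep n) * 4) * u n := by
      simp only [hu]
      rw [prod_range_succ, tau_succ, pow_add, pow_succ]
      ring
    rw [h6]
    exact mul_le_mul_of_nonneg_right h5 (hu0 n)
  have ht : Tendsto (fun g : ℕ => 2 ^ (g ^ 2)) atTop atTop :=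
    (tendsto_pow_atTop_atTop_of_one_lt (one_lt_two (α := ℕ))).comp (tendsto_pow_atTop two_ne_zero)
  obtain ⟨g, hg⟩ := ((hs.tendsto_atTop_zero.comp ht).eventually
    (gt_mem_nhds (show (0 : ℝ) < ε / 24 by positivity))).exists
  set N := 2 ^ (g ^ 2) with hN
  set Q := ∏ n ∈ range N, ((J * n + 1 : ℕ) : ℝ) with hQ
  set A := ∑ n ∈ range N, aa n * n with hA
  have hQ0 : 0 ≤ Q := prod_nonneg fun _ _ => Nat.cast_nonneg _
  have hA0 : 0 ≤ A := sum_nonneg fun n _ => mul_nonneg (aa_pos n).le (Nat.cast_nonneg _)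
  refine ⟨N, ε / (4 * (Q * A + 1)), by positivity, ?_⟩
  have h1 := mul_le_mul_of_nonneg_left (aa_tsum_tail g) hQ0
  have h2 : Q * ((1 / 2) ^ tau N * 4 ^ N) < ε / 24 := hg
  have h3 : Q * A * (ε / (4 * (Q * A + 1))) ≤ ε / 4 := by
    rw [← mul_div_assoc, div_le_div_iff₀ (by positivity) (by positivity)]
    nlinarith [mul_nonneg hQ0 hA0]
  rw [← hN] at h1
  rw [← hQ, ← hA]
  nlinarith

theorem grid_near {η : ℝ} (h0 : 0 < η) (h1 : η ≤ 1) {J : ℕ} (hJ : (1 - η) ^ J < η) {z : ℝ}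
    (hz : z ∈ Set.Icc (0 : ℝ) 1) : ∃ j ≤ J, |z - (1 - η) ^ j| ≤ η := by
  classical
  by_cases h : (1 - η) ^ J < z
  · have hex : ∃ j, (1 - η) ^ j < z := ⟨J, h⟩
    have h2 := Nat.find_spec hex
    have h3 : Nat.find hex ≠ 0 := by
      intro h0
      rw [h0, pow_zero] at h2
      linarith [hz.2]
    have h4 := Nat.find_min hex (Nat.sub_lt (Nat.pos_of_ne_zero h3) one_pos)
    refine ⟨_, Nat.find_min' hex h, ?_⟩
    obtain ⟨k, hk⟩ := Nat.exists_eq_succ_of_ne_zero h3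
    rw [hk] at h2 h4 ⊢
    simp only [Nat.succ_eq_add_one, add_tsub_cancel_right, not_lt] at h4 h2 ⊢
    rw [abs_of_pos (by linarith), pow_succ]
    have h5 : (1 - η) ^ k ≤ 1 := pow_le_one₀ (by linarith) (by linarith)
    nlinarith
  · refine ⟨J, le_rfl, ?_⟩
    rw [abs_of_nonpos (by linarith)]
    linarith [hz.1]

abbrev X := Set.Icc (0 : ℝ) 1

theorem exists_grid (K : NonemptyCompacts X) {r : ℝ} (hr : 0 < r) :
    ∃ (θ : ℝ) (J : ℕ) (F : NonemptyCompacts X), 0 ≤ θ ∧ θ ≤ 1 ∧ dist K F < r ∧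
      (∀ z ∈ F, ∃ j ≤ J, (z : ℝ) = θ ^ j) ∧ ∃ x ∈ F, ∃ y ∈ F, 0 < (x : ℝ) ∧ (x : ℝ) < y := by
  set η := min (r / 4) (1 / 2) with hη
  have h0 : 0 < η := lt_min (by positivity) (by norm_num)
  have h1 : η ≤ 1 / 2 := min_le_right _ _
  have h2 : η ≤ r / 4 := min_le_left _ _
  obtain ⟨J, hJ⟩ := exists_pow_lt_of_lt_one h0 (show 1 - η < 1 by linarith)
  have hmem : ∀ j : ℕ, (1 - η) ^ j ∈ X := fun j =>
    ⟨pow_nonneg (by linarith) j, pow_le_one₀ (by linarith) (by linarith)⟩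
  set pt : ℕ → X := fun j => ⟨(1 - η) ^ j, hmem j⟩ with hpt
  set F0 : Set X := {w | (∃ j ≤ J + 1, w = pt j) ∧ ∃ z ∈ K, dist w z ≤ 2 * η} with hF0
  have hfin : F0.Finite := by
    refine ((Set.finite_le_nat (J + 1)).image pt).subset ?_
    rintro w ⟨⟨j, hj, rfl⟩, -⟩
    exact ⟨j, hj, rfl⟩
  have hnear : ∀ z ∈ K, ∃ j, pt j ∈ F0 ∧ pt (j + 1) ∈ F0 ∧ dist z (pt j) ≤ 2 * η := by
    intro z hz
    obtain ⟨j, hj, hj'⟩ := grid_near h0 (by linarith) hJ z.2
    have d1 : dist z (pt j) ≤ η := hj'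
    have d2 : dist (pt (j + 1)) (pt j) ≤ η := by
      change |(1 - η) ^ (j + 1) - (1 - η) ^ j| ≤ η
      have := hmem j
      rw [pow_succ, abs_of_nonpos (by nlinarith [this.1])]
      nlinarith [this.2]
    refine ⟨j, ⟨⟨j, by omega, rfl⟩, z, hz, ?_⟩, ⟨⟨j + 1, by omega, rfl⟩, z, hz, ?_⟩, by linarith⟩
    · rw [dist_comm]; linarith
    · refine (dist_triangle _ (pt j) _).trans ?_
      rw [dist_comm (pt j)]; linarith
  obtain ⟨z0, hz0⟩ := K.nonempty
  obtain ⟨j0, a1, a2, -⟩ := hnear z0 hz0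
  refine ⟨1 - η, J + 1, ⟨⟨F0, hfin.isCompact⟩, ⟨_, a1⟩⟩, by linarith, by linarith, ?_, ?_,
    pt (j0 + 1), a2, pt j0, a1, ?_, ?_⟩
  · rw [Metric.NonemptyCompacts.dist_eq]
    refine lt_of_le_of_lt (Metric.hausdorffDist_le_of_mem_dist (r := 2 * η) (by linarith) ?_ ?_)
      (by linarith)
    · intro z hz
      obtain ⟨j, b1, -, b2⟩ := hnear z hz
      exact ⟨_, b1, b2⟩
    · rintro w ⟨-, z, hz, hz'⟩
      exact ⟨z, hz, hz'⟩
  · rintro w ⟨⟨j, hj, rfl⟩, -⟩
    exact ⟨j, hj, rfl⟩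
  · exact pow_pos (by linarith) _
  · exact pow_lt_pow_right_of_lt_one₀ (by linarith) (by linarith) (Nat.lt_succ_self _)

theorem two_points : ∀ᶠ K : NonemptyCompacts X in residual (NonemptyCompacts X),
    ∃ x : X, x ∈ K ∧ ∃ y : X, y ∈ K ∧ 0 < (x : ℝ) ∧ (x : ℝ) < y := by
  apply residual_of_dense_open
  · have : {K : NonemptyCompacts X | ∃ x ∈ K, ∃ y ∈ K, 0 < (x : ℝ) ∧ (x : ℝ) < y}
        = ⋃ q : ℝ, ({K : NonemptyCompacts X | ((K : Set X) ∩ {z | 0 < (z : ℝ) ∧ (z : ℝ) < q}).Nonempty}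
          ∩ {K : NonemptyCompacts X | ((K : Set X) ∩ {z | q < (z : ℝ)}).Nonempty}) := by
      ext K
      simp only [Set.mem_ofPred_eq, Set.mem_iUnion, Set.mem_inter_iff]
      constructor
      · rintro ⟨x, hx, y, hy, h1, h2⟩
        exact ⟨(x + y) / 2, ⟨x, hx, h1, by linarith⟩, ⟨y, hy, by
          show ((x : ℝ) + y) / 2 < y
          linarith⟩⟩
      · rintro ⟨q, ⟨x, hx, h1, h2⟩, ⟨y, hy, h3⟩⟩
        exact ⟨x, hx, y, hy, h1, h2.trans h3⟩
    show IsOpen {K : NonemptyCompacts X | ∃ x ∈ K, ∃ y ∈ K, 0 < (x : ℝ) ∧ (x : ℝ) < y}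
    rw [this]
    refine isOpen_iUnion fun q => IsOpen.inter ?_ ?_
    · exact NonemptyCompacts.isOpen_inter_nonempty_of_isOpen
        ((isOpen_lt continuous_const continuous_subtype_val).inter
          (isOpen_lt continuous_subtype_val continuous_const))
    · exact NonemptyCompacts.isOpen_inter_nonempty_of_isOpen
        (isOpen_lt continuous_const continuous_subtype_val)
  · rw [Metric.dense_iff]
    intro K r hr
    obtain ⟨θ, J, F, -, -, h3, -, h5⟩ := exists_grid K hr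
    exact ⟨F, by rwa [Metric.mem_ball, dist_comm], h5⟩

theorem img_sub (K : Set X) : (Subtype.val '' K : Set ℝ) ⊆ Set.Icc 0 1 := by
  rintro _ ⟨z, -, rfl⟩
  exact z.2

theorem small_volume {ε : ℝ} (hε : 0 < ε) :
    ∀ᶠ K : NonemptyCompacts X in residual (NonemptyCompacts X),
    volume (msum aa (Subtype.val '' (K : Set X))) ≤ ENNReal.ofReal ε := by
  have : {K : NonemptyCompacts X | ∃ U : Set X, (IsOpen U ∧ ∀ K' : Set X, K' ⊆ U →
      volume (msum aa (Subtype.val '' K')) ≤ ENNReal.ofReal ε) ∧ (K : Set X) ⊆ U}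
      ∈ residual (NonemptyCompacts X) := by
    apply residual_of_dense_open
    · simp only [Set.ofPred_exists, Set.ofPred_and]
      refine isOpen_iUnion fun U => ?_
      by_cases hU : IsOpen U ∧ ∀ K' : Set X, K' ⊆ U →
        volume (msum aa (Subtype.val '' K')) ≤ ENNReal.ofReal ε
      · simpa [hU.1, eq_true hU.2] using NonemptyCompacts.isOpen_subsets_of_isOpen hU.1
      · convert isOpen_empty
        ext K
        simp only [Set.mem_inter_iff, Set.mem_ofPred_eq, Set.mem_empty_iff_false, iff_false]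
        exact fun h => hU h.1
    · rw [Metric.dense_iff]
      intro K r hr
      obtain ⟨θ, J, F, h1, h2, h3, h4, -⟩ := exists_grid K hr
      obtain ⟨N, δ, hδ, hN⟩ := exists_small J hε
      refine ⟨F, by rwa [Metric.mem_ball, dist_comm],
        ⋃ j ∈ range (J + 1), {z : X | |(z : ℝ) - θ ^ j| < δ}, ⟨?_, ?_⟩, ?_⟩
      · exact isOpen_biUnion fun j _ => isOpen_lt (by fun_prop) continuous_const
      · intro K' hK'
        refine (volume_le (img_sub K') h1 h2 (J := J) (δ := δ) ?_ N).trans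
          (ENNReal.ofReal_le_ofReal hN)
        rintro _ ⟨z, hz, rfl⟩
        have := hK' hz
        simp only [Set.mem_iUnion, mem_range, Set.mem_ofPred_eq] at this
        obtain ⟨j, hj, hj'⟩ := this
        exact ⟨j, by omega, hj'.le⟩
      · intro z hz
        obtain ⟨j, hj, hj'⟩ := h4 z hz
        simp only [Set.mem_iUnion, mem_range, Set.mem_ofPred_eq]
        exact ⟨j, by omega, by rw [hj', sub_self, abs_zero]; exact hδ⟩
  filter_upwards [this] with K ⟨U, hU, hK⟩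
  exact hU.2 _ hK

theorem null_volume : ∀ᶠ K : NonemptyCompacts X in residual (NonemptyCompacts X),
    volume (msum aa (Subtype.val '' (K : Set X))) = 0 := by
  have h := eventually_countable_forall.mpr
    (fun n : ℕ => small_volume (ε := 1 / ((n : ℝ) + 1)) (by positivity))
  filter_upwards [h] with K hK
  have h1 := ENNReal.tendsto_ofReal (tendsto_one_div_add_atTop_nhds_zero_nat (𝕜 := ℝ))
  rw [ENNReal.ofReal_zero] at h1
  exact le_antisymm (ge_of_tendsto' h1 hK) zero_le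

end Pool.Agent.MP_2cd596_an.H55
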